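import Pool.Agent.J4H73.KT.DiscK

/-! The upper bound for the switched sum, tuples of shifts. -/

set_option autoImplicit false
set_option maxHeartbeats 4000000

open Finset Filter Topology

namespace Pool.Agent.J4H73.KT

open Pool.Agent.H378R2 Pool.Agent.H378R2.LSBV Pool.Agent.N610.AP Pool.Agent.Y882
open Pool.Agent.J4H73.BV Pool.Agent.J4H73.CH Pool.Agent.J4H73.CG Pool.Agent.J4H73.CP
open Pool.Agent.W23.DC (Mer pr SF)
open Pool.Agent

/-- the shifts seen from `s * (n + x i0)` -/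
def xs {k : ℕ} (x : Fin k → ℤ) (i0 : Fin k) (s : ℤ) (j : Fin k) : ℤ :=
  if j = i0 then -(s * x i0) else s * (x j - x i0)

theorem card_xs {k : ℕ} (x : Fin k → ℤ) (i0 : Fin k) (s : ℤ) (hs : s = 1 ∨ s = -1) (p : ℕ) (hp : p.Prime) :
    (Rx (xs x i0 s) p).card = (Rx x p).card := card_swap x i0 s hs p hp

theorem card_xs1 (h : ℤ) (s : ℤ) (hs : s = 1 ∨ s = -1) (p : ℕ) (hp : p.Prime) :
    (Rx (fun _ : Fin 1 => -(s * h)) p).card = (Rx (fun _ : Fin 1 => h) p).card := by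
  have h1 := card_swap (fun _ : Fin 1 => h) 0 s hs p hp
  rw [← h1]
  congr 1

open Classical in
theorem hswK (k : ℕ) (hk : 1 ≤ k) (A0 : ℝ) (F f : ℝ → ℝ) (hSF : SF A0 F f) (d d' : ℝ) (hd0 : 0 < d) (hd : d ≤ 1 / 2)
    (hd'0 : 0 < d') (hd' : d' ≤ 1 / 2) (A B N : ℕ) (hkA : k ≤ 2 ^ A) (hN : 2 ^ (2 * A + 1) + 2 * B + 6 ≤ N) (Bs : ℝ)
    (hBs : Bs = kap d' / kap d * cst * (A0 / (4969 / 10000))) (θ : ℝ) (hθ : 0 < θ) :
    ∃ ε₀ : ℝ, 0 < ε₀ ∧ ∀ ε₁ : ℝ, 0 < ε₁ → ε₁ ≤ ε₀ → ∃ Zs : ℕ, ∀ᶠ X : ℝ in atTop,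
        ∀ (ps : ℕ) (S : Finset ℕ), GoodP Zs ps → GoodS X S →
        ∑ p ∈ pairs X ps ⌊X ^ (497 / 1000 : ℝ)⌋₊ S, LSBV.wt A p.2 *
          TQ (1243 / 10000) (1667 / 5000) d' X (p.1 * p.2) ≤ X / (Real.log X) ^ N →
        ∀ (x : Fin k → ℤ) (i0 : Fin k) (r : ℕ), HPs d d' X (x i0) → r.Coprime (WW X S ps) →
        (∀ p : ℕ, p.Prime → p ∣ WW X S ps → ∀ j, ¬ (p : ℤ) ∣ r + x j) →
        ∑ n ∈ (Icc 1 ⌊3 * X⌋₊).filter (fun n : ℕ => n ≡ r [MOD WW X S ps] ∧ n.Prime ∧
            Sw (1243 / 10000) (1667 / 5000) X ((n : ℤ) + x i0).natAbs ∧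
            ∀ p ∈ Y882.PZ ⌊X⌋₊ ε₁, p ≠ ps → ∀ j, ¬ (p : ℤ) ∣ n + x j),
          Ps d X n * ArithmeticFunction.vonMangoldt n ≤
          ε₁ * (Bs + θ) * (LPs d X / (WW X S ps).totient *
            ∏ p ∈ Y882.PZ ⌊X⌋₊ ε₁, (1 - gR (WW X S ps) ps (Rx x) p)) +
            X / ((WW X S ps).totient * (Real.log X) ^ B) := by
  have hA0 := hSF.pos
  have hk' := kap_pos d hd0
  have hk'' := kap_pos d' hd'0
  have hcst := cst_pos
  have hP : PAR (1243 / 10000) (1667 / 5000) := ⟨by norm_num, by norm_num, by norm_num, by norm_num⟩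
  obtain ⟨a, ha⟩ : ∃ a : ℝ, a = kap d' / kap d * cst := ⟨_, rfl⟩
  obtain ⟨b, hb⟩ : ∃ b : ℝ, b = A0 / (4969 / 10000) := ⟨_, rfl⟩
  have ha0 : 0 < a := by rw [ha]; positivity
  have hb0 : 0 < b := by rw [hb]; positivity
  obtain ⟨κ, hκd⟩ : ∃ κ : ℝ, κ = min 1 (θ / (a + b + 1)) := ⟨_, rfl⟩
  have hκ0 : 0 < κ := by rw [hκd]; exact lt_min one_pos (by positivity)
  have hκ1 : κ ≤ 1 := by rw [hκd]; exact min_le_left _ _
  have hκθ : κ * (a + b + 1) ≤ θ := by
    have : κ ≤ θ / (a + b + 1) := by rw [hκd]; exact min_le_right _ _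
    rwa [le_div_iff₀ (by positivity)] at this
  have hab : (a + κ) * (b + κ) ≤ Bs + θ := by
    have e1 : κ * κ ≤ κ * 1 := mul_le_mul_of_nonneg_left hκ1 hκ0.le
    have e2 : Bs = a * b := by rw [hBs, ha, hb]
    rw [e2]
    nlinarith
  obtain ⟨ε₀, hε₀, HU⟩ := coreU A0 F f hSF k (4969 / 10000) (1657 / 10000) (497 / 1000) (by norm_num) (by norm_num)
    (by norm_num) (by norm_num) (by norm_num) κ hκ0
  refine ⟨ε₀, hε₀, fun ε₁ hε0 hεle => ?_⟩
  obtain ⟨η, hη, Y0, HU⟩ := HU ε₁ hε0 hεle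
  refine ⟨0, ?_⟩
  filter_upwards [ev_YF, ev_z (1243 / 10000) (by norm_num),
    discK (1243 / 10000) (1667 / 5000) d' hP hd'0.le hd' A (B + 2) N (by omega),
    merK ε₁ (1657 / 10000) η hε0 (by norm_num) hη, evm d d' κ hd0 hd hd'0 hd' hκ0, eventually_ge_atTop (Y0 : ℝ)]
    with X hY hz HD HM hevm hXY0
  intro ps S hps hS hpairs x i0 r hh hr hrh
  obtain ⟨z1, z2, z3, z4⟩ := hz
  obtain ⟨⟨hh0, hhX, hhn⟩, s, hs, hsn⟩ := hh
  set h : ℤ := x i0 with hhdef
  have hX0 : 0 < X := by linarith [hY.X4]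
  have hX1 : 1 ≤ X := by linarith [hY.X4]
  have hX100 : 100 ≤ X := hY.X4
  have hL100 := hY.L100
  set L := Real.log X with hL
  have hL0 : 0 < L := by linarith
  have hL1 : 1 ≤ L := by linarith
  set Y := ⌊X⌋₊ with hYd
  have hYY0 : Y0 ≤ Y := Nat.le_floor hXY0
  have hYr : (100 : ℝ) ≤ Y := hY.Y100
  set W := WW X S ps with hW
  have hW0 : 0 < W := H378R2.WW_pos X S ps
  have hφ0 : (0 : ℝ) < W.totient := by exact_mod_cast Nat.totient_pos.2 hW0
  have hps' : ps = 1 ∨ ps.Prime := by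
    rcases hps with h | h
    · exact Or.inl h
    · exact Or.inr h.1
  set N3 := ⌊3 * X⌋₊ with hN3
  have hN3X : (N3 : ℝ) ≤ 3 * X := Nat.floor_le (by positivity)
  have hss : s * s = 1 := by rcases hs with h | h <;> rw [h] <;> norm_num
  -- the sieve
  obtain ⟨c, hc1, hc2, hc3, hc4⟩ := HU Y hYY0
  set P := Y882.PZ Y (1657 / 10000) with hPd
  have hPp : ∀ p ∈ P, p.Prime := by
    intro p hp
    rw [hPd] at hp
    exact (mem_PZY hp).1
  set P1 := Y882.PZ Y ε₁ with hP1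
  set h' : ℤ := -(s * h) with hh'
  set Rf : ℕ → Finset ℕ := RC (xs x i0 s) h' P1 with hRf
  set a' : ℕ → ℝ := aS (1243 / 10000) (1667 / 5000) d' X with ha'
  have ha'0 : ∀ u ∈ Icc 1 N3, 0 ≤ a' u := by
    intro u hu
    rw [mem_Icc] at hu
    exact (aS_facts _ _ d' X hP hY hd'0.le hd' u ((Nat.le_floor_iff (by linarith)).1 hu.2)).1
  -- the class
  obtain ⟨r0, hr0⟩ : ∃ r0 : ℕ, (r0 : ℤ) ≡ s * (r + h) [ZMOD W] := by
    refine ⟨((s * (r + h)) % (W : ℤ)).toNat, ?_⟩
    rw [Int.toNat_of_nonneg (Int.emod_nonneg _ (by exact_mod_cast hW0.ne'))]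
    exact Int.mod_modEq _ _
  have hdvd : ∀ p : ℕ, p.Prime → p ∣ W → ((p : ℤ) ∣ r0 ↔ (p : ℤ) ∣ s * (r + h)) := by
    intro p hp hpW
    have h1 : (r0 : ℤ) ≡ s * (r + h) [ZMOD p] := hr0.of_dvd (by exact_mod_cast hpW)
    exact h1.dvd_iff
  have hsp : ∀ (p : ℕ) (z : ℤ), (p : ℤ) ∣ s * z → (p : ℤ) ∣ z := by
    intro p z hz
    have : z = s * (s * z) := by rw [← mul_assoc, hss, one_mul]
    rw [this]
    exact Dvd.dvd.mul_left hz s
  have hr0c : r0.Coprime W := by
    rw [Nat.coprime_iff_gcd_eq_one, Nat.eq_one_iff_not_exists_prime_dvd]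
    intro p hp hpg
    have h1 : p ∣ r0 := hpg.trans (Nat.gcd_dvd_left _ _)
    have h2 : p ∣ W := hpg.trans (Nat.gcd_dvd_right _ _)
    have h3 := (hdvd p hp h2).1 (by exact_mod_cast h1)
    exact hrh p hp h2 i0 (hsp p _ h3)
  -- membership in the residue sets
  have hmemR : ∀ p ∈ P, ∀ (m : ℤ) (u : ℕ), (u : ℤ) = s * (m + h) → u % p ∈ Rf p →
      (p : ℤ) ∣ m ∨ (p ∈ P1 ∧ ∃ j, (p : ℤ) ∣ m + x j) := by
    intro p hp m u hu hm
    have hpp := hPp p hp
    have e0 : s * (m + h) + h' = s * m := by rw [hh']; ring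
    by_cases hp1 : p ∈ P1
    · rw [hRf, RC_pos _ _ _ _ hp1, mod_mem_Rx _ _ _ hpp.pos] at hm
      obtain ⟨_, j, hj⟩ := hm
      unfold xs at hj
      by_cases hji : j = i0
      · rw [if_pos hji, hu] at hj
        left
        apply hsp
        rw [← e0]
        exact hj
      · rw [if_neg hji, hu] at hj
        right
        refine ⟨hp1, j, hsp p _ ?_⟩
        have e1 : s * (m + h) + s * (x j - x i0) = s * (m + x j) := by rw [hhdef]; ring
        rwa [e1] at hj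
    · rw [hRf, RC_neg _ _ _ _ hp1, mod_mem_Rx _ _ _ hpp.pos] at hm
      obtain ⟨_, _, hj⟩ := hm
      left
      apply hsp
      rw [← e0, ← hu]
      exact hj
  have hmemW : ∀ p ∈ P, p ∣ W → r0 % p ∉ Rf p := by
    intro p hp hpW hm
    have hpp := hPp p hp
    have h1 : (r0 : ℤ) ≡ s * (r + h) [ZMOD p] := hr0.of_dvd (by exact_mod_cast hpW)
    have hp0 : (p : ℤ) ≠ 0 := by exact_mod_cast hpp.ne_zero
    -- a representative which is exactly `s * (m + h)`
    have h2 : ((r0 : ℕ) : ℤ) = s * (s * r0 - h + h) := by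
      rw [sub_add_cancel, ← mul_assoc, hss, one_mul]
    have h3 := hmemR p hp (s * r0 - h) r0 h2 hm
    have h4 : (s * r0 - h : ℤ) ≡ r [ZMOD p] := by
      have h5 := (h1.mul_left s).sub_right h
      have e : s * (s * (r + h)) - h = (r : ℤ) := by
        rw [← mul_assoc, hss]; ring
      rwa [e] at h5
    rcases h3 with h3 | ⟨_, j, h3⟩
    · have h6 := h4.dvd_iff.1 h3
      have h7 : p ∣ r := by exact_mod_cast h6
      have h8 : p ∣ Nat.gcd r W := Nat.dvd_gcd h7 hpW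
      rw [hr] at h8
      exact hpp.one_lt.ne' (Nat.dvd_one.1 h8)
    · have h6 := (h4.add_right (x j)).dvd_iff.1 h3
      exact hrh p hpp hpW j h6
  have hcQ : ∀ T ⊆ P, c T ≠ 0 → ∏ p ∈ T, p ≤ ⌊X ^ (497 / 1000 : ℝ)⌋₊ := by
    intro T hT hne
    apply Nat.le_floor
    refine (hc2 T hT hne).trans ?_
    exact Real.rpow_le_rpow (by positivity) hY.YX (by norm_num)
  have hB := HD ps S hpairs k hkA
  have hws := wsumR W ps hps' (Icc 1 N3) a' (MS (1243 / 10000) (1667 / 5000) d' X) r0 P hPp Rf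
    (fun p hp => RC_range _ _ _ p (hPp p hp).pos) k (fun p _ => card_RC_le _ _ _ p hk)
    hmemW hr0c ⌊X ^ (497 / 1000 : ℝ)⌋₊ c 1 hc1 hcQ
    (X / ((W.totient : ℝ) * L ^ (B + 2))) hB
  -- the density
  have hcardP1 : ∀ p ∈ P1, (Rf p).card = (Rx x p).card := by
    intro p hp
    rw [hRf, RC_pos _ _ _ _ hp]
    exact card_xs x i0 s hs p (mem_PZY hp).1
  have hVup := hc4 (gR W ps Rf) (fun p hp => gR_nn W ps Rf p (hPp p hp))
    (fun p hp => by linarith [(gR_le_one W ps Rf p (card_RC_le' _ _ _ p (mem_PZY hp).1.pos) (mem_PZY hp).1).1])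
    (fun p hp _ => gR_le W ps Rf k p (card_RC_le _ _ _ p hk) (mem_PZY hp).1)
    (HM ps S hps' h hh0 hhX Rf (by
      intro p hp
      have hpp : p.Prime := by
        unfold pr at hp
        rw [mem_filter] at hp
        exact hp.2.1
      rw [hRf, RC_neg _ _ _ _ (pr_not_PZ hp)]
      exact card_xs1 h s hs p hpp))
  set G1 := ∏ p ∈ P1, (1 - gR W ps (Rx x) p) with hG1
  have hG1' : ∏ p ∈ P1, (1 - gR W ps Rf p) = G1 := by
    rw [hG1]
    apply prod_congr rfl
    intro p hp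
    rw [gR_congr W ps Rf (Rx x) p (hcardP1 p hp)]
  rw [hG1'] at hVup
  have hG10 : 0 ≤ G1 := prod_nonneg fun p hp => (gR_Rx_le_one W ps x p (mem_PZY hp).1).1
  set U := (Icc 1 N3).filter (fun u => u ≡ r0 [MOD W]) with hU
  set V : ℕ → ℝ := fun u => VV P c (fun p => if p ≠ ps ∧ u % p ∈ Rf p then 1 else 0) with hV
  have hVind : ∀ u : ℕ, (if ∀ p ∈ P, ¬ (p ≠ ps ∧ u % p ∈ Rf p) then (1 : ℝ) else 0) ≤ V u :=
    fun u => ind_le P hPp c hc3 (fun p => p ≠ ps ∧ u % p ∈ Rf p)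
  have hV0 : ∀ u : ℕ, 0 ≤ V u := fun u => le_trans (by split_ifs <;> norm_num) (hVind u)
  have hMS0 : 0 ≤ MS (1243 / 10000) (1667 / 5000) d' X := sum_nonneg fun u hu => ha'0 u hu
  have hsv : ∑ u ∈ U, a' u * V u ≤ MS (1243 / 10000) (1667 / 5000) d' X / W.totient * (ε₁ * (b + κ) * G1) +
      X / ((W.totient : ℝ) * L ^ (B + 2)) := by
    have h1 := (abs_le.1 hws).2
    have h2 : MS (1243 / 10000) (1667 / 5000) d' X / W.totient * VV P c (gR W ps Rf) ≤
        MS (1243 / 10000) (1667 / 5000) d' X / W.totient * (ε₁ * (b + κ) * G1) := by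
      apply mul_le_mul_of_nonneg_left _ (by positivity)
      rw [hb]
      exact hVup
    have h3 : ∑ u ∈ U, a' u * V u = ∑ n ∈ (Icc 1 N3).filter (fun n => n ≡ r0 [MOD W]),
      a' n * VV P c (fun p => if p ≠ ps ∧ n % p ∈ Rf p then 1 else 0) := rfl
    rw [h3]
    linarith
  -- the sum over `n`
  set Fn := (Icc 1 N3).filter (fun n : ℕ => n ≡ r [MOD W] ∧ n.Prime ∧
            Sw (1243 / 10000) (1667 / 5000) X ((n : ℤ) + h).natAbs ∧
            ∀ p ∈ P1, p ≠ ps → ∀ j, ¬ (p : ℤ) ∣ n + x j) with hFn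
  have hl3 : Real.log (3 * X) ≤ L + 2 := by
    rw [Real.log_mul (by norm_num) hX0.ne']
    have : Real.log 3 ≤ 2 := by
      rw [Real.log_le_iff_le_exp (by norm_num)]
      have := Real.add_one_le_exp (2 : ℝ)
      linarith
    linarith
  have hpt : ∀ n ∈ Fn, Ps d X n * ArithmeticFunction.vonMangoldt n ≤
        (L + 2) * ∑ u ∈ U, (if (u : ℤ) = s * (n + h) then a' u * V u else 0) := by
    intro n hn
    rw [hFn, mem_filter, mem_Icc] at hn
    obtain ⟨⟨hn1, hn2⟩, hnr, hnp, hsw, hnx⟩ := hn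
    have hn3 : (n : ℝ) ≤ 3 * X := (Nat.le_floor_iff (by linarith)).1 hn2
    have hsum0 : 0 ≤ ∑ u ∈ U, (if (u : ℤ) = s * (n + h) then a' u * V u else 0) := by
      apply sum_nonneg
      intro u hu
      rw [hU, mem_filter] at hu
      split_ifs
      · exact mul_nonneg (ha'0 u hu.1) (hV0 u)
      · exact le_rfl
    by_cases hPs0 : Ps d X n = 0
    · rw [hPs0, zero_mul]
      positivity
    obtain ⟨hpos, hPsle⟩ := hsn n hPs0
    have hPspos : 0 < Ps d X n := lt_of_le_of_ne (Ps_nonneg _ _ _) (Ne.symm hPs0)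
    have hnX : X < n := Ps_supp d X hX0 hd n hPs0
    have hlog : ArithmeticFunction.vonMangoldt n ≤ L + 2 := by
      refine ArithmeticFunction.vonMangoldt_le_log.trans (le_trans ?_ hl3)
      exact Real.log_le_log (by exact_mod_cast hn1) hn3
    have hLam0 : (0 : ℝ) ≤ ArithmeticFunction.vonMangoldt n := ArithmeticFunction.vonMangoldt_nonneg
    set u := ((n : ℤ) + h).natAbs with hu
    have hus : (u : ℤ) = s * (n + h) := by
      rw [hu, Int.natCast_natAbs]
      rcases hs with h1 | h1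
      · rw [h1, one_mul] at hpos ⊢
        exact abs_of_pos hpos
      · rw [h1] at hpos ⊢
        rw [abs_of_neg (by linarith)]
        ring
    have hPu : Ps d' X u ≠ 0 := by
      intro h0
      rw [h0] at hPsle
      linarith
    have huX : X < u := Ps_supp d' X hX0 hd' u hPu
    have hu3 : (u : ℝ) ≤ 3 * X := Ps_supp2 d' X hX0 hd' u hPu
    have huI : u ∈ Icc 1 N3 := by
      rw [mem_Icc]
      refine ⟨?_, (Nat.le_floor_iff (by linarith)).2 hu3⟩
      have : (0 : ℝ) < u := by linarith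
      exact_mod_cast this
    have hVu : 1 ≤ V u := by
      have h1 := hVind u
      rw [if_pos] at h1
      · exact h1
      · rintro p hp ⟨hpps, hpe⟩
        have hpp := hPp p hp
        rcases hmemR p hp n u hus hpe with h3 | ⟨hp1, j, h3⟩
        · have h4 : p ∣ n := by exact_mod_cast h3
          have h5 : p = n := (Nat.prime_dvd_prime_iff_eq hpp hnp).1 h4
          rw [hPd] at hp
          have h6 : (p : ℝ) ≤ Y := by exact_mod_cast (mem_PZY hp).2
          have h7 : (Y : ℝ) ≤ X := hY.YX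
          rw [h5] at h6
          linarith
        · exact hnx p hp1 hpps j h3
    have hconv := conv_ge _ _ X hP hY u hsw huX.le hu3
    have hau : Ps d' X u ≤ a' u := by
      simp only [ha']
      unfold aS
      calc Ps d' X u = Ps d' X u * 1 := (mul_one _).symm
        _ ≤ _ := mul_le_mul_of_nonneg_left hconv (Ps_nonneg _ _ _)
    have huU : u ∈ U := by
      rw [hU, mem_filter]
      refine ⟨huI, ?_⟩
      rw [← Int.natCast_modEq_iff, hus]
      refine Int.ModEq.trans ?_ hr0.symm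
      apply Int.ModEq.mul_left
      apply Int.ModEq.add_right
      exact (Int.natCast_modEq_iff.2 hnr)
    have h1 : a' u * V u ≤ ∑ u ∈ U, (if (u : ℤ) = s * (n + h) then a' u * V u else 0) := by
      have h2 := single_le_sum (f := fun u : ℕ => (if (u : ℤ) = s * (n + h) then a' u * V u else 0))
        (fun v hv => by
          rw [hU, mem_filter] at hv
          split_ifs
          · exact mul_nonneg (ha'0 v hv.1) (hV0 v)
          · exact le_rfl) huU
      beta_reduce at h2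
      rwa [if_pos hus] at h2
    have h3 : Ps d X n ≤ a' u * V u := by
      calc Ps d X n ≤ a' u := hPsle.trans hau
        _ = a' u * 1 := (mul_one _).symm
        _ ≤ _ := mul_le_mul_of_nonneg_left hVu (ha'0 u huI)
    calc Ps d X n * ArithmeticFunction.vonMangoldt n ≤ (a' u * V u) * (L + 2) :=
          mul_le_mul h3 hlog hLam0 (mul_nonneg (ha'0 u huI) (hV0 u))
      _ ≤ (∑ u ∈ U, (if (u : ℤ) = s * (n + h) then a' u * V u else 0)) * (L + 2) :=
          mul_le_mul_of_nonneg_right h1 (by linarith)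
      _ = _ := by ring
  refine (sum_le_sum hpt).trans ?_
  rw [← mul_sum]
  have t2 : ∑ n ∈ Fn, ∑ u ∈ U, (if (u : ℤ) = s * (n + h) then a' u * V u else 0) ≤ ∑ u ∈ U, a' u * V u := by
    rw [sum_comm]
    apply sum_le_sum
    intro u hu
    rw [hU, mem_filter] at hu
    rw [← sum_filter, sum_const, nsmul_eq_mul]
    have h1 : (Fn.filter (fun n : ℕ => (u : ℤ) = s * (n + h))).card ≤ 1 := by
      rw [card_le_one]
      intro n hn m hm
      rw [mem_filter] at hn hm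
      have h2 : s * ((n : ℤ) + h) = s * (m + h) := by rw [← hn.2, ← hm.2]
      have h3 : (n : ℤ) + h = m + h := by
        have h4 : s * (s * ((n : ℤ) + h)) = s * (s * (m + h)) := by rw [h2]
        rwa [← mul_assoc, ← mul_assoc, hss, one_mul, one_mul] at h4
      have h5 : (n : ℤ) = m := by linarith
      exact_mod_cast h5
    calc _ ≤ (1 : ℝ) * (a' u * V u) :=
          mul_le_mul_of_nonneg_right (by exact_mod_cast h1) (mul_nonneg (ha'0 u hu.1) (hV0 u))
      _ = _ := one_mul _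
  have t3 : (L + 2) * ∑ n ∈ Fn, ∑ u ∈ U, (if (u : ℤ) = s * (n + h) then a' u * V u else 0) ≤
      (L + 2) * (MS (1243 / 10000) (1667 / 5000) d' X / W.totient * (ε₁ * (b + κ) * G1) +
      X / ((W.totient : ℝ) * L ^ (B + 2))) :=
    mul_le_mul_of_nonneg_left (t2.trans hsv) (by linarith)
  have t4 : (L + 2) * (MS (1243 / 10000) (1667 / 5000) d' X / W.totient * (ε₁ * (b + κ) * G1)) ≤
      ε₁ * (Bs + θ) * (LPs d X / W.totient * G1) := by
    have hLP0 : 0 ≤ LPs d X :=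
      sum_nonneg fun n _ => mul_nonneg (Ps_nonneg _ _ _) ArithmeticFunction.vonMangoldt_nonneg
    calc _ = ((L + 2) * MS (1243 / 10000) (1667 / 5000) d' X) * (ε₁ * (b + κ) * G1 / W.totient) := by ring
      _ ≤ ((a + κ) * LPs d X) * (ε₁ * (b + κ) * G1 / W.totient) := by
          apply mul_le_mul_of_nonneg_right _ (by positivity)
          rw [ha]
          exact hevm
      _ = ε₁ * ((a + κ) * (b + κ)) * (LPs d X / W.totient * G1) := by ring
      _ ≤ _ := by
          apply mul_le_mul_of_nonneg_right _ (by positivity)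
          exact mul_le_mul_of_nonneg_left hab hε0.le
  have t5 : (L + 2) * (X / ((W.totient : ℝ) * L ^ (B + 2))) ≤ X / (W.totient * L ^ B) := by
    rw [mul_div_assoc', div_le_div_iff₀ (by positivity) (by positivity)]
    have p2 : (L + 2) * L ^ B ≤ L ^ (B + 2) := by
      calc (L + 2) * L ^ B ≤ (L ^ 2) * L ^ B := by
            apply mul_le_mul_of_nonneg_right _ (by positivity)
            nlinarith
        _ = L ^ (B + 2) := by ring
    calc (L + 2) * X * (W.totient * L ^ B) = ((L + 2) * L ^ B) * (X * W.totient) := by ring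
      _ ≤ L ^ (B + 2) * (X * W.totient) := mul_le_mul_of_nonneg_right p2 (by positivity)
      _ = _ := by ring
  rw [mul_add] at t3
  linarith only [t3, t4, t5]

end Pool.Agent.J4H73.KT
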