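import Pool.Agent.J4H73.KT.P2K
import Pool.Agent.J4H73.CP.Fin2b

/-! The final form for admissible sets. -/

set_option autoImplicit false
set_option maxHeartbeats 4000000

open Finset Filter Topology

namespace Pool.Agent.J4H73.KT

open Pool.Agent.J4H73.CG Pool.Agent.J4H73.CP Pool.Agent

/-- the elements of a finite set as a function on `Fin k` -/
theorem enum_set (k : ℕ) (B : Finset ℤ) (hB : B.card ≤ k) (b0 : ℤ) (hb0 : b0 ∈ B) :
    ∃ x : Fin k → ℤ, (∀ j, x j ∈ B) ∧ ∀ b ∈ B, ∃ j, x j = b := by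
  classical
  let e : Fin B.card ≃ B := B.equivFin.symm
  refine ⟨fun j => if h : (j : ℕ) < B.card then ((e ⟨j, h⟩ : B) : ℤ) else b0, ?_, ?_⟩
  · intro j
    dsimp only
    split_ifs with h
    · exact (e ⟨j, h⟩).2
    · exact hb0
  · intro b hb
    obtain ⟨i, hi⟩ := e.surjective ⟨b, hb⟩
    refine ⟨⟨i, lt_of_lt_of_le i.2 hB⟩, ?_⟩
    dsimp only
    rw [dif_pos i.2]
    have : (⟨(i : ℕ), i.2⟩ : Fin B.card) = i := rfl
    rw [this, hi]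

open Classical in
theorem ktuple (k : ℕ) (δ : ℝ) (hδ : 0 < δ) : ∃ c : ℝ, 0 < c ∧ ∃ θ : ℝ, 0 < θ ∧ θ ≤ δ ∧ ∃ x₀ : ℝ, ∀ x : ℝ, x₀ ≤ x →
    ∀ A : Finset ℤ, A.card ≤ k → (∀ q : ℕ, q.Prime → ∃ r : ℤ, ∀ a ∈ A, ¬ (q : ℤ) ∣ r + a) →
    (∀ a ∈ A, |(a : ℝ)| ≤ x / 10000000) → ∀ a₁ ∈ A, ∀ a₂ ∈ A, a₁ ≠ a₂ →
      x ^ (49 / 50 : ℝ) ≤ Set.ncard {n : ℕ | 0 < n ∧ (n : ℝ) ≤ x ∧ 0 < n + a₁ ∧ (n + a₁).natAbs.Prime ∧
        0 < n + a₂ ∧ Alm 2 (x ^ (1 / 9 : ℝ)) (n + a₂) ∧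
        (∀ a ∈ A, 0 < n + a ∧ ∀ q : ℕ, q.Prime → (q : ℤ) ∣ n + a → x ^ θ < q) ∧
        ∀ z : ℤ, |(z : ℝ) - (n + a₁)| ≤ c * rankin x → (∀ a ∈ A, z ≠ n + a) →
          ∃ q : ℕ, q.Prime ∧ (q : ℝ) ≤ x ^ θ ∧ (q : ℤ) ∣ z} := by
  rcases Nat.eq_zero_or_pos k with hk | hk
  · refine ⟨1, one_pos, δ, hδ, le_rfl, 0, fun x _ A hA _ _ a₁ ha₁ => ?_⟩
    rw [hk] at hA
    have := Finset.card_pos.2 ⟨a₁, ha₁⟩
    omega
  obtain ⟨c, hc, ε₁, hε, hεδ', H⟩ := p2K k hk (min δ 1) (lt_min hδ one_pos)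
  have hεδ : ε₁ ≤ δ / 2 := by
    have := min_le_left δ 1
    linarith
  have hε1 : ε₁ ≤ 1 := by
    have := min_le_right δ 1
    linarith
  have evX : ∀ᶠ X : ℝ in atTop, (4 * X) ^ (49 / 50 : ℝ) ≤ X ^ (99 / 100 : ℝ) ∧
      (4 * X) ^ (1 / 9 : ℝ) ≤ X ^ (12 / 100 : ℝ) ∧ (4 * X) ^ (4 / 5 * ε₁) < (⌊X⌋₊ : ℝ) ^ ε₁ := by
    have h1 : ∀ a b : ℝ, a < b → 0 ≤ a → ∀ᶠ X : ℝ in atTop, (4 * X) ^ a ≤ X ^ b := by
      intro a b hab ha
      filter_upwards [eventually_gt_atTop 0, (tendsto_rpow_atTop (show 0 < b - a by linarith)).eventually_ge_atTop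
        ((4 : ℝ) ^ a)] with X hX h
      rw [Real.mul_rpow (by norm_num) hX.le]
      calc (4 : ℝ) ^ a * X ^ a ≤ X ^ (b - a) * X ^ a := mul_le_mul_of_nonneg_right h (by positivity)
        _ = X ^ b := by rw [← Real.rpow_add hX]; congr 1; ring
    filter_upwards [h1 (49 / 50) (99 / 100) (by norm_num) (by norm_num), h1 (1 / 9) (12 / 100) (by norm_num) (by norm_num),
      h1 (4 / 5 * ε₁) (9 / 10 * ε₁) (by linarith) (by positivity), eventually_ge_atTop 4,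
      (tendsto_rpow_atTop (show 0 < 1 / 10 * ε₁ by positivity)).eventually_gt_atTop ((2 : ℝ) ^ ε₁)] with X a1 a2 a3 a4 a5
    refine ⟨a1, a2, lt_of_le_of_lt a3 ?_⟩
    have hX0 : 0 < X := by linarith
    have hfl : X / 2 ≤ (⌊X⌋₊ : ℝ) := by
      have := Nat.lt_floor_add_one X
      linarith
    calc X ^ (9 / 10 * ε₁) < (X / 2) ^ ε₁ := by
          rw [Real.div_rpow hX0.le (by norm_num), lt_div_iff₀ (by positivity)]
          calc X ^ (9 / 10 * ε₁) * 2 ^ ε₁ < X ^ (9 / 10 * ε₁) * X ^ (1 / 10 * ε₁) :=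
                mul_lt_mul_of_pos_left a5 (by positivity)
            _ = X ^ ε₁ := by rw [← Real.rpow_add hX0]; congr 1; ring
      _ ≤ (⌊X⌋₊ : ℝ) ^ ε₁ := Real.rpow_le_rpow (by linarith) hfl hε.le
  obtain ⟨X0, hX0⟩ := eventually_atTop.1 (((H.and RR_eq).and (rankin_scale 4 (by norm_num))).and
    (evX.and (eventually_ge_atTop (10 : ℝ))))
  refine ⟨c / 2, by positivity, 4 / 5 * ε₁, by positivity, by linarith, 4 * X0, ?_⟩
  intro x hx A hA hadm hAx a₁ ha₁ a₂ ha₂ hne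
  obtain ⟨X, hX⟩ : ∃ X : ℝ, X = x / 4 := ⟨_, rfl⟩
  have hxX : x = 4 * X := by rw [hX]; ring
  obtain ⟨⟨⟨g1, g2⟩, g3, g4⟩, ⟨g5, g6, g7⟩, g9⟩ := hX0 X (by linarith)
  rw [g2] at g1
  rw [← hxX] at g4 g5 g6 g7
  have hXpos : 0 < X := by linarith
  -- the tuple
  set B : Finset ℤ := (A.erase a₁).image (fun a => a - a₁) with hB
  have hBc : B.card ≤ k := card_image_le.trans ((card_le_card (erase_subset _ _)).trans hA)
  have hb2 : a₂ - a₁ ∈ B := mem_image.2 ⟨a₂, mem_erase.2 ⟨fun h => hne h.symm, ha₂⟩, rfl⟩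
  obtain ⟨y, hy1, hy2⟩ := enum_set k B hBc _ hb2
  obtain ⟨i0, hi0⟩ := hy2 _ hb2
  have hBA : ∀ j, y j + a₁ ∈ A ∧ y j + a₁ ≠ a₁ := by
    intro j
    obtain ⟨a, ha, hae⟩ := mem_image.1 (hy1 j)
    have e : y j + a₁ = a := by rw [← hae]; ring
    rw [e]
    exact ⟨(mem_erase.1 ha).2, (mem_erase.1 ha).1⟩
  have hAB : ∀ a ∈ A, a ≠ a₁ → ∃ j, y j = a - a₁ := fun a ha hne =>
    hy2 _ (mem_image.2 ⟨a, mem_erase.2 ⟨hne, ha⟩, rfl⟩)
  have hdist : ∀ a ∈ A, |((a - a₁ : ℤ) : ℝ)| ≤ X / 1000000 := by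
    intro a ha
    push_cast
    have h1 := hAx a ha
    have h2 := hAx a₁ ha₁
    have h3 := abs_sub (a : ℝ) a₁
    rw [hxX] at h1 h2
    linarith
  have hy9 : ∀ j, |(y j : ℝ)| ≤ 9 * X := by
    intro j
    have h1 := hdist _ (hBA j).1
    have e : y j + a₁ - a₁ = y j := by ring
    rw [e] at h1
    linarith
  have hyadm : ∀ p : ℕ, p.Prime → ∃ a : ℤ, ¬ (p : ℤ) ∣ a ∧ ∀ j, ¬ (p : ℤ) ∣ a + y j := by
    intro p hp
    obtain ⟨r, hr⟩ := hadm p hp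
    refine ⟨r + a₁, hr a₁ ha₁, fun j => ?_⟩
    have h1 := hr _ (hBA j).1
    have e : r + a₁ + y j = r + (y j + a₁) := by ring
    rw [e]
    exact h1
  have hHP : HPs (1 / 1000) (101 / 100000) X (y i0) := by
    apply HPs_small X (by linarith)
    · rw [hi0]
      exact sub_ne_zero.2 (fun h => hne h.symm)
    · rw [hi0]
      exact hdist a₂ ha₂
  have g := g1 y hyadm hy9 i0 hHP
  refine g5.trans (g.trans ?_)
  -- the count
  set T := {n : ℕ | 0 < n ∧ (n : ℝ) ≤ x ∧ 0 < n + a₁ ∧ (n + a₁).natAbs.Prime ∧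
        0 < n + a₂ ∧ Alm 2 (x ^ (1 / 9 : ℝ)) (n + a₂) ∧
        (∀ a ∈ A, 0 < n + a ∧ ∀ q : ℕ, q.Prime → (q : ℤ) ∣ n + a → x ^ (4 / 5 * ε₁) < q) ∧
        ∀ z : ℤ, |(z : ℝ) - (n + a₁)| ≤ c / 2 * rankin x → (∀ a ∈ A, z ≠ n + a) →
          ∃ q : ℕ, q.Prime ∧ (q : ℝ) ≤ x ^ (4 / 5 * ε₁) ∧ (q : ℤ) ∣ z} with hT
  have hTfin : T.Finite := by
    apply (Set.finite_Iic ⌊x⌋₊).subset
    intro n hn
    exact Nat.le_floor hn.2.1
  set F := (Icc 1 ⌊3 * X⌋₊).filter (fun n : ℕ => X < n ∧ n.Prime ∧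
        CH.AP 2 (12 / 100) X ((n : ℤ) + y i0).natAbs ∧
        (∀ j, ∀ q : ℕ, q.Prime → (q : ℤ) ∣ n + y j → (⌊X⌋₊ : ℝ) ^ ε₁ ≤ q) ∧
        ∀ z : ℤ, |(z : ℝ)| ≤ c * rankin X → z ≠ 0 → (∀ j, z ≠ y j) →
          ∃ q : ℕ, q.Prime ∧ (q : ℝ) ≤ X ^ (2 * (ε₁ / 3)) ∧ (q : ℤ) ∣ n + z) with hF
  have ha₁ := ha₁
  have key : ∀ p ∈ F, 0 < (p : ℤ) - a₁ ∧ ((p : ℤ) - a₁).toNat ∈ T := by
    intro p hp
    rw [hF, mem_filter, mem_Icc] at hp
    obtain ⟨⟨hp1, hp2⟩, hp3, hp4, hp5, hp6, hp7⟩ := hp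
    have hp3X : (p : ℝ) ≤ 3 * X := (Nat.le_floor_iff (by positivity)).1 hp2
    have hA1 := abs_le.1 (hAx a₁ ha₁)
    have hposR : (0 : ℝ) < (p : ℝ) - a₁ := by linarith
    have hpos : 0 < (p : ℤ) - a₁ := by exact_mod_cast hposR
    obtain ⟨n, hn⟩ : ∃ n : ℕ, n = ((p : ℤ) - a₁).toNat := ⟨_, rfl⟩
    have hnZ : (n : ℤ) = p - a₁ := by rw [hn]; exact Int.toNat_of_nonneg hpos.le
    have hnR : (n : ℝ) = p - a₁ := by exact_mod_cast hnZ
    refine ⟨hpos, ?_⟩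
    rw [← hn]
    have hna : ∀ a ∈ A, 0 < (n : ℤ) + a := by
      intro a ha
      have h1 := abs_le.1 (hdist a ha)
      push_cast at h1
      have h2 : (0 : ℝ) < (n : ℝ) + a := by
        rw [hnR]
        linarith
      exact_mod_cast h2
    refine ⟨?_, ?_, hna a₁ ha₁, ?_, hna a₂ ha₂, ⟨?_, ?_⟩, ?_, ?_⟩
    · have : (0 : ℝ) < n := by rw [hnR]; exact hposR
      exact_mod_cast this
    · rw [hnR]; linarith
    · have e : (n : ℤ) + a₁ = p := by rw [hnZ]; ring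
      rw [e, Int.natAbs_natCast]
      exact hp4
    · have e : (n : ℤ) + a₂ = p + y i0 := by rw [hnZ, hi0]; ring
      rw [e]
      exact hp5.1
    · intro q hq hqd
      have e : (n : ℤ) + a₂ = p + y i0 := by rw [hnZ, hi0]; ring
      rw [e] at hqd
      exact g6.trans (hp5.2 q hq ((dvd_natAbs_iff q _).2 hqd))
    · intro a ha
      refine ⟨hna a ha, fun q hq hqd => ?_⟩
      by_cases h : a = a₁
      · have e : (n : ℤ) + a = p := by rw [hnZ, h]; ring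
        rw [e] at hqd
        have h1 : q ∣ p := by exact_mod_cast hqd
        have h2 : q = p := (Nat.prime_dvd_prime_iff_eq hq hp4).1 h1
        rw [h2]
        refine lt_of_lt_of_le g7 ?_
        have h3 : (⌊X⌋₊ : ℝ) ≤ X := Nat.floor_le hXpos.le
        have h4 : (1 : ℝ) ≤ ⌊X⌋₊ := by
          have : 1 ≤ ⌊X⌋₊ := Nat.le_floor (by push_cast; linarith)
          exact_mod_cast this
        calc (⌊X⌋₊ : ℝ) ^ ε₁ ≤ (⌊X⌋₊ : ℝ) ^ (1 : ℝ) := Real.rpow_le_rpow_of_exponent_le h4 hε1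
          _ = ⌊X⌋₊ := Real.rpow_one _
          _ ≤ p := by linarith
      · obtain ⟨j, hj⟩ := hAB a ha h
        have e : (n : ℤ) + a = p + y j := by rw [hnZ, hj]; ring
        rw [e] at hqd
        exact lt_of_lt_of_le g7 (hp6 j q hq hqd)
    · intro z hz1 hz2
      obtain ⟨q, hq1, hq2, hq3⟩ := hp7 (z - p) (by
        push_cast
        have e : (n : ℝ) + a₁ = p := by rw [hnR]; ring
        rw [e] at hz1
        refine hz1.trans ?_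
        calc c / 2 * rankin x ≤ c / 2 * (2 * rankin X) := mul_le_mul_of_nonneg_left g4 (by positivity)
          _ = _ := by ring) (by
        intro h
        apply hz2 a₁ ha₁
        rw [hnZ]
        linarith) (by
        intro j h
        apply hz2 _ (hBA j).1
        rw [hnZ, ← h]
        ring)
      refine ⟨q, hq1, hq2.trans ?_, ?_⟩
      · calc X ^ (2 * (ε₁ / 3)) ≤ x ^ (2 * (ε₁ / 3)) := Real.rpow_le_rpow hXpos.le (by linarith) (by positivity)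
          _ ≤ x ^ (4 / 5 * ε₁) := by
              apply Real.rpow_le_rpow_of_exponent_le (by linarith)
              linarith
      · have : (p : ℤ) + (z - p) = z := by ring
        rwa [this] at hq3
  have hinj : Set.InjOn (fun p : ℕ => ((p : ℤ) - a₁).toNat) F := by
    intro p hp p' hp' h
    have h1 := (key p hp).1
    have h2 := (key p' hp').1
    have h3 : (((p : ℤ) - a₁).toNat : ℤ) = (((p' : ℤ) - a₁).toNat : ℤ) := by
      have h' : ((p : ℤ) - a₁).toNat = ((p' : ℤ) - a₁).toNat := h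
      rw [h']
    rw [Int.toNat_of_nonneg h1.le, Int.toNat_of_nonneg h2.le] at h3
    omega
  have hle : (F.card : ℕ) ≤ T.ncard := by
    rw [← Set.ncard_coe_finset]
    exact Set.ncard_le_ncard_of_injOn _ (fun p hp => (key p (mem_coe.1 hp)).2) hinj hTfin
  exact_mod_cast hle

end Pool.Agent.J4H73.KT
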