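import Pool.Agent.J4H73.KT.ExcK
import Pool.Agent.J4H73.CH.Pre
import Pool.Agent.J4H73.CH.Cov
import Pool.Agent.J4H73.CG.CovZ

/-! Tuples of integer shifts: densities and covering. -/

set_option autoImplicit false
set_option maxHeartbeats 4000000

open Finset Filter

namespace Pool.Agent.J4H73.KT

open Pool.Agent.H378R2 Pool.Agent.H378R2.LSBV Pool.Agent.N610.AP Pool.Agent.Y882
open Pool.Agent.J4H73.BV Pool.Agent.J4H73.CH Pool.Agent.J4H73.CG
open Pool.Agent.W23.DC (Mer pr)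
open Pool.Agent

theorem mem_PZY {Y : ℕ} {ε : ℝ} {p : ℕ} (hp : p ∈ Y882.PZ Y ε) : p.Prime ∧ p ≤ Y := by
  unfold Y882.PZ at hp
  rw [mem_filter, mem_Icc] at hp
  exact ⟨hp.2.1, hp.1.2⟩

theorem mem_PZY_iff {Y : ℕ} (hY : 2 ≤ Y) {ε : ℝ} (hε : ε ≤ 1) {p : ℕ} :
    p ∈ Y882.PZ Y ε ↔ p.Prime ∧ (p : ℝ) < (Y : ℝ) ^ ε := by
  unfold Y882.PZ
  rw [mem_filter, mem_Icc]
  have hYr : (2 : ℝ) ≤ Y := by exact_mod_cast hY
  constructor
  · rintro ⟨_, h1, h2⟩
    exact ⟨h1, (tt_lt Y p ε hY h1.pos).1 h2⟩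
  · rintro ⟨h1, h2⟩
    refine ⟨⟨h1.one_lt.le, ?_⟩, h1, (tt_lt Y p ε hY h1.pos).2 h2⟩
    have h3 : (p : ℝ) ≤ (Y : ℝ) ^ (1 : ℝ) :=
      h2.le.trans (Real.rpow_le_rpow_of_exponent_le (by linarith) hε)
    rw [Real.rpow_one] at h3
    exact_mod_cast h3

/-- the lower bound for the product -/
theorem G1_lowK (k : ℕ) (ε₁ : ℝ) : ∃ c : ℝ, 0 < c ∧ ∀ᶠ X : ℝ in atTop,
    ∀ (ps : ℕ) (S : Finset ℕ), GoodP (4 * k + 2) ps → GoodS X S → ∀ x : Fin k → ℤ,
      c / (Real.log X) ^ (4 * k) ≤ ∏ p ∈ Y882.PZ ⌊X⌋₊ ε₁, (1 - gR (WW X S ps) ps (Rx x) p) := by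
  classical
  obtain ⟨c, hc, H⟩ := prod_lower k
  refine ⟨c, hc, ?_⟩
  have t1 := Real.tendsto_log_atTop
  have t2 : Tendsto (fun y : ℝ => Real.log (Real.log y)) atTop atTop := t1.comp t1
  filter_upwards [floor_facts, eventually_ge_atTop 100, t1.eventually_ge_atTop (1000 * ((4 * k + 2 : ℕ) : ℝ)),
    t2.eventually_ge_atTop (((4 * k + 2 : ℕ) : ℝ) + 1)] with X hf hX hL hL2
  obtain ⟨f1, f2, f3, f4⟩ := hf
  intro ps S hps hS x
  set W := WW X S ps with hW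
  have hsplit : ∏ p ∈ Y882.PZ ⌊X⌋₊ ε₁, (1 - gR W ps (Rx x) p) =
      ∏ p ∈ (Y882.PZ ⌊X⌋₊ ε₁).filter (fun p => 4 * k + 2 < p), (1 - gR W ps (Rx x) p) := by
    rw [prod_filter]
    apply prod_congr rfl
    intro p hp
    split_ifs with h1
    · rfl
    · have h2 : p ∈ PW X S ps := Pool.Agent.TH101.RG.small_mem_PW (z := 4 * k + 2) (Z := 4 * k + 2)
        hL hL2 hps le_rfl hS (mem_PZY hp).1 (by omega)
      have h3 : p ∣ W := (prime_dvd_WW (mem_PZY hp).1).2 h2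
      unfold gR
      rw [if_pos (Or.inl h3), sub_zero]
  rw [hsplit]
  have h1 := H ⌊X⌋₊ ((Y882.PZ ⌊X⌋₊ ε₁).filter (fun p => 4 * k + 2 < p)) (fun p => (Rx x p).card) (by omega) (by
    intro p hp
    rw [mem_filter] at hp
    exact ⟨(mem_PZY hp.1).1, hp.2, (mem_PZY hp.1).2⟩) (fun p _ => card_Rx_le x p)
  have hlogf : 0 < Real.log ⌊X⌋₊ := Real.log_pos (by
    have : (100 : ℝ) ≤ ⌊X⌋₊ := by exact_mod_cast f1
    linarith)
  have hlogle : Real.log ⌊X⌋₊ ≤ Real.log X := Real.log_le_log (by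
    have : (100 : ℝ) ≤ ⌊X⌋₊ := by exact_mod_cast f1
    linarith) f2
  calc c / (Real.log X) ^ (4 * k) ≤ c / (Real.log ⌊X⌋₊) ^ (4 * k) := by gcongr
    _ ≤ _ := h1
    _ ≤ _ := by
        apply Finset.prod_le_prod
        · intro p hp
          rw [mem_filter] at hp
          have hpp := (mem_PZY hp.1).1
          have h2 : (2 : ℝ) ≤ p := by exact_mod_cast hpp.two_le
          have h3 : ((Rx x p).card : ℝ) ≤ ((p - 1 : ℕ) : ℝ) := by exact_mod_cast card_Rx_le' x p hpp.pos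
          rw [Nat.cast_sub hpp.one_lt.le, Nat.cast_one] at h3
          rw [mul_one_div, sub_nonneg, div_le_one (by linarith)]
          exact h3
        · intro p hp
          rw [mem_filter] at hp
          have hpp := (mem_PZY hp.1).1
          have h2 : (2 : ℝ) ≤ p := by exact_mod_cast hpp.two_le
          apply sub_le_sub_left
          unfold gR
          split_ifs
          · apply mul_nonneg (Nat.cast_nonneg _)
            apply div_nonneg <;> linarith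
          · exact le_rfl

/-- the two products are of the same size -/
theorem PG_le_G1K (k : ℕ) (ε₁ : ℝ) (hε : 0 < ε₁) (hε1 : ε₁ ≤ 1) : ∀ᶠ X : ℝ in atTop,
    ∀ (ps : ℕ) (S : Finset ℕ) (J : ℕ), (⌊X⌋₊ : ℝ) ^ (ε₁ / 3) ≤ 2 ^ 2 ^ J → ∀ x : Fin k → ℤ,
      ∏ p ∈ N610.AP.PZ X S ps J, (1 - gR (WW X S ps) ps (Rx x) p) ≤
        Real.exp (6 * k) * ∏ p ∈ Y882.PZ ⌊X⌋₊ ε₁, (1 - gR (WW X S ps) ps (Rx x) p) := by
  classical
  obtain ⟨N0, H⟩ := Pool.Agent.W378.DC.MP (ε₁ / 3) 1 (by positivity) one_pos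
  filter_upwards [floor_facts, eventually_ge_atTop (N0 : ℝ),
    (tendsto_rpow_atTop (show 0 < ε₁ / 6 by positivity)).eventually_ge_atTop (2 * k + 2)]
    with X hf hXN hXk
  obtain ⟨f1, f2, f3, f4⟩ := hf
  intro ps S J hJ x
  set Y := ⌊X⌋₊ with hY
  set W := WW X S ps with hW
  have hYr : (100 : ℝ) ≤ Y := by exact_mod_cast f1
  have hX0 : 0 < X := by linarith
  set g : ℕ → ℝ := gR W ps (Rx x) with hg
  have hg01 : ∀ p : ℕ, p.Prime → 0 ≤ 1 - g p ∧ 1 - g p ≤ 1 := fun p hp => gR_Rx_le_one W ps x p hp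
  -- large primes
  set Q := pr Y (ε₁ / 3) ε₁ with hQ
  have hQp : ∀ p ∈ Q, p.Prime ∧ (Y : ℝ) ^ (ε₁ / 3) ≤ p := by
    intro p hp
    rw [hQ] at hp
    unfold pr at hp
    rw [mem_filter] at hp
    refine ⟨hp.2.1, ?_⟩
    by_contra hc
    push Not at hc
    have := (tt_lt Y p (ε₁ / 3) (by omega) hp.2.1.pos).2 hc
    linarith [hp.2.2.1]
  have hk0 : (0 : ℝ) ≤ k := Nat.cast_nonneg _
  have hYk : 2 * (k : ℝ) + 2 ≤ (Y : ℝ) ^ (ε₁ / 3) := by
    refine hXk.trans ?_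
    calc X ^ (ε₁ / 6) = (X ^ (1 / 2 : ℝ)) ^ (ε₁ / 3) := by
          rw [← Real.rpow_mul hX0.le]
          congr 1
          ring
      _ ≤ _ := Real.rpow_le_rpow (by positivity) f4 (by positivity)
  have hlow : Real.exp (-(6 * k)) ≤ ∏ p ∈ Q, (1 - g p) := by
    have h1 := H Y (Nat.le_floor hXN) (ε₁ / 3) ε₁ le_rfl (by linarith) hε1
    have h2 : ∑ p ∈ Q, 1 / ((p : ℝ) - 1) ≤ 3 := by
      have h3 := (abs_le.1 h1).2
      have h4 : Real.log (ε₁ / (ε₁ / 3)) ≤ 2 := by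
        rw [show ε₁ / (ε₁ / 3) = 3 by field_simp]
        rw [Real.log_le_iff_le_exp (by norm_num)]
        have := Real.add_one_le_exp (2 : ℝ)
        linarith
      linarith
    have h3 : Real.exp (-(6 * k)) ≤ Real.exp (∑ p ∈ Q, -(2 * k * (1 / ((p : ℝ) - 1)))) := by
      apply Real.exp_le_exp.2
      rw [sum_neg_distrib, ← mul_sum]
      nlinarith
    refine h3.trans ?_
    rw [Real.exp_sum]
    apply Finset.prod_le_prod (fun p _ => (Real.exp_pos _).le)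
    intro p hp
    obtain ⟨hpp, hpY⟩ := hQp p hp
    have h4 : 2 * (k : ℝ) + 1 ≤ (p : ℝ) - 1 := by linarith
    have h5 : (0 : ℝ) < (p : ℝ) - 1 := by linarith
    have h6 : g p ≤ k * (1 / ((p : ℝ) - 1)) := by
      have := gR_le W ps (Rx x) k p (card_Rx_le x p) hpp
      rwa [mul_one_div]
    have h7 : (k : ℝ) * (1 / ((p : ℝ) - 1)) ≤ 1 / 2 := by
      rw [mul_one_div, div_le_div_iff₀ h5 (by norm_num)]
      linarith
    have h8 := exp_le_one_sub (x := (k : ℝ) * (1 / ((p : ℝ) - 1))) (by positivity) h7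
    have h9 : -(2 * (k : ℝ) * (1 / ((p : ℝ) - 1))) = -(2 * ((k : ℝ) * (1 / ((p : ℝ) - 1)))) := by ring
    rw [h9]
    linarith
  -- the product
  have hmem : ∀ p ∈ Y882.PZ Y ε₁, p.Prime ∧ (p : ℝ) < (Y : ℝ) ^ ε₁ := fun p hp =>
    (mem_PZY_iff (by omega) hε1).1 hp
  set PJ := N610.AP.PZ X S ps J with hPJ
  have h1 : ∏ p ∈ Y882.PZ Y ε₁, (1 - g p) ≥ (∏ p ∈ PJ, (1 - g p)) * ∏ p ∈ Q, (1 - g p) := by
    have e1 : ∏ p ∈ Y882.PZ Y ε₁, (1 - g p) = ∏ p ∈ (Y882.PZ Y ε₁).filter (fun p => p ∈ PJ ∪ Q), (1 - g p) := by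
      rw [prod_filter]
      apply prod_congr rfl
      intro p hp
      split_ifs with h1
      · rfl
      · rw [mem_union, not_or] at h1
        obtain ⟨hpp, hpY⟩ := hmem p hp
        have h2 : p ∣ W ∨ p = ps := by
          by_contra hc
          push Not at hc
          by_cases h3 : p ≤ 2 ^ 2 ^ J
          · apply h1.1
            rw [hPJ, mem_PZ]
            exact ⟨hpp, h3, fun h => hc.1 ((prime_dvd_WW hpp).2 h), hc.2⟩
          · apply h1.2
            push Not at h3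
            have h4 : (Y : ℝ) ^ (ε₁ / 3) ≤ p := by
              refine hJ.trans ?_
              have : ((2 ^ 2 ^ J : ℕ) : ℝ) ≤ p := by exact_mod_cast h3.le
              push_cast at this
              exact this
            rw [hQ]
            unfold pr
            rw [mem_filter, mem_Icc]
            refine ⟨⟨hpp.one_lt.le, (mem_PZY hp).2⟩, hpp, ?_, (tt_lt Y p ε₁ (by omega) hpp.pos).2 hpY⟩
            by_contra hc2
            push Not at hc2
            have := (tt_lt Y p (ε₁ / 3) (by omega) hpp.pos).1 hc2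
            linarith
        simp only [hg]
        unfold gR
        rw [if_pos h2, sub_zero]
    rw [e1]
    have e2 : (Y882.PZ Y ε₁).filter (fun p => p ∈ PJ ∪ Q) ⊆ PJ ∪ Q := fun p hp => (mem_filter.1 hp).2
    have hUp : ∀ p ∈ PJ ∪ Q, p.Prime := by
      intro p hp
      rw [mem_union] at hp
      rcases hp with hp | hp
      · exact (mem_PZ.1 hp).1
      · exact (hQp p hp).1
    have e3 : ∏ p ∈ PJ ∪ Q, (1 - g p) ≤ ∏ p ∈ (Y882.PZ Y ε₁).filter (fun p => p ∈ PJ ∪ Q), (1 - g p) := by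
      rw [← prod_sdiff e2]
      calc _ ≤ 1 * ∏ p ∈ (Y882.PZ Y ε₁).filter (fun p => p ∈ PJ ∪ Q), (1 - g p) := by
            apply mul_le_mul_of_nonneg_right
            · apply prod_le_one
              · intro p hp
                exact (hg01 p (hUp p (mem_sdiff.1 hp).1)).1
              · intro p hp
                exact (hg01 p (hUp p (mem_sdiff.1 hp).1)).2
            · exact prod_nonneg fun p hp => (hg01 p (hUp p (e2 hp))).1
        _ = _ := one_mul _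
    refine le_trans ?_ e3
    have e4 : ∏ p ∈ PJ ∪ Q, (1 - g p) = (∏ p ∈ PJ, (1 - g p)) * ∏ p ∈ Q \ PJ, (1 - g p) := by
      rw [← prod_union disjoint_sdiff]
      rw [union_sdiff_self_eq_union]
    rw [e4]
    apply mul_le_mul_of_nonneg_left _ (prod_nonneg fun p hp => (hg01 p (mem_PZ.1 hp).1).1)
    rw [← prod_sdiff (sdiff_subset (s := Q) (t := PJ))]
    calc _ ≤ 1 * ∏ p ∈ Q \ PJ, (1 - g p) := by
          apply mul_le_mul_of_nonneg_right
          · apply prod_le_one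
            · intro p hp
              exact (hg01 p (hQp p (mem_sdiff.1 hp).1).1).1
            · intro p hp
              exact (hg01 p (hQp p (mem_sdiff.1 hp).1).1).2
          · exact prod_nonneg fun p hp => (hg01 p (hQp p (mem_sdiff.1 hp).1).1).1
      _ = _ := one_mul _
  have hPJ0 : 0 ≤ ∏ p ∈ PJ, (1 - g p) := prod_nonneg fun p hp => (hg01 p (mem_PZ.1 hp).1).1
  have h2 := mul_le_mul_of_nonneg_left hlow hPJ0
  have h3 := h2.trans h1
  have h4 : ∏ p ∈ PJ, (1 - g p) = Real.exp (6 * k) * ((∏ p ∈ PJ, (1 - g p)) * Real.exp (-(6 * k))) := by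
    rw [Real.exp_neg]
    field_simp
  rw [h4]
  exact mul_le_mul_of_nonneg_left h3 (Real.exp_pos _).le

/-- the residues: all shifts for the primes in `P1`, one shift for the others -/
noncomputable def RC {k : ℕ} (x : Fin k → ℤ) (h : ℤ) (P1 : Finset ℕ) (p : ℕ) : Finset ℕ := by
  classical
  exact if p ∈ P1 then Rx x p else Rx (fun _ : Fin 1 => h) p

theorem RC_pos {k : ℕ} (x : Fin k → ℤ) (h : ℤ) (P1 : Finset ℕ) (p : ℕ) (hp : p ∈ P1) :
    RC x h P1 p = Rx x p := by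
  unfold RC
  rw [if_pos hp]

theorem RC_neg {k : ℕ} (x : Fin k → ℤ) (h : ℤ) (P1 : Finset ℕ) (p : ℕ) (hp : p ∉ P1) :
    RC x h P1 p = Rx (fun _ : Fin 1 => h) p := by
  unfold RC
  rw [if_neg hp]

theorem RC_range {k : ℕ} (x : Fin k → ℤ) (h : ℤ) (P1 : Finset ℕ) (p : ℕ) (hp : 0 < p) :
    ∀ b ∈ RC x h P1 p, b ≠ 0 ∧ b < p := by
  by_cases h1 : p ∈ P1
  · rw [RC_pos x h P1 p h1]; exact Rx_range x p hp
  · rw [RC_neg x h P1 p h1]; exact Rx_range _ p hp

theorem card_RC_le {k : ℕ} (x : Fin k → ℤ) (h : ℤ) (P1 : Finset ℕ) (p : ℕ) (hk : 1 ≤ k) :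
    (RC x h P1 p).card ≤ k := by
  by_cases h1 : p ∈ P1
  · rw [RC_pos x h P1 p h1]; exact card_Rx_le x p
  · rw [RC_neg x h P1 p h1]; exact (card_Rx_le _ p).trans hk

theorem card_RC_le' {k : ℕ} (x : Fin k → ℤ) (h : ℤ) (P1 : Finset ℕ) (p : ℕ) (hp : 0 < p) :
    (RC x h P1 p).card ≤ p - 1 := by
  by_cases h1 : p ∈ P1
  · rw [RC_pos x h P1 p h1]; exact card_Rx_le' x p hp
  · rw [RC_neg x h P1 p h1]; exact card_Rx_le' _ p hp

theorem gR_congr (W ps : ℕ) (R R' : ℕ → Finset ℕ) (p : ℕ) (h : (R p).card = (R' p).card) :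
    gR W ps R p = gR W ps R' p := by
  unfold gR
  rw [h]

theorem merK (ε₁ υ η : ℝ) (hε : 0 < ε₁) (hυ : υ ≤ 1 / 2) (hη : 0 < η) : ∀ᶠ X : ℝ in atTop,
    ∀ (ps : ℕ) (S : Finset ℕ), (ps = 1 ∨ ps.Prime) → ∀ h : ℤ, h ≠ 0 → |(h : ℝ)| ≤ 9 * X →
      ∀ R : ℕ → Finset ℕ, (∀ p ∈ pr ⌊X⌋₊ ε₁ υ, (R p).card = (Rx (fun _ : Fin 1 => h) p).card) →
      Mer (pr ⌊X⌋₊ ε₁ υ) (W23.DC.tt ⌊X⌋₊) (gR (WW X S ps) ps R) ε₁ υ η := by
  filter_upwards [merZ ε₁ υ η hε hυ hη] with X HM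
  intro ps S hps h hh hhX R hR
  have h1 := HM ps S hps h.natAbs (Int.natAbs_pos.2 hh) (by
    rw [Nat.cast_natAbs, Int.cast_abs]
    exact hhX)
  intro a b ha hab hb
  have h2 := h1 a b ha hab hb
  have h3 : ∑ p ∈ (pr ⌊X⌋₊ ε₁ υ).filter (fun p => a ≤ W23.DC.tt ⌊X⌋₊ p ∧ W23.DC.tt ⌊X⌋₊ p < b),
      gh (WW X S ps) ps h.natAbs p =
      ∑ p ∈ (pr ⌊X⌋₊ ε₁ υ).filter (fun p => a ≤ W23.DC.tt ⌊X⌋₊ p ∧ W23.DC.tt ⌊X⌋₊ p < b),
      gR (WW X S ps) ps R p := by
    apply sum_congr rfl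
    intro p hp
    have hp1 := (mem_filter.1 hp).1
    have hpp : p.Prime := by
      unfold pr at hp1
      rw [mem_filter] at hp1
      exact hp1.2.1
    rw [← gR_single _ _ h p hpp]
    exact (gR_congr _ _ _ _ p (hR p hp1)).symm
  rw [h3] at h2
  exact h2

theorem pr_not_PZ {Y : ℕ} {a b : ℝ} {p : ℕ} (hp : p ∈ pr Y a b) : p ∉ Y882.PZ Y a := by
  intro h
  unfold pr at hp
  unfold Y882.PZ at h
  rw [mem_filter] at hp h
  linarith [hp.2.2.1, h.2.2]

theorem coverK (k : ℕ) (c₃ : ℝ) (hc₃ : 0 < c₃) : ∃ c : ℝ, 0 < c ∧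
    ∀ᶠ X : ℝ in atTop, ∀ (ps : ℕ) (S : Finset ℕ), GoodP 2 ps → GoodS X S →
    ∀ x : Fin k → ℤ, (∀ p : ℕ, p.Prime → ∃ a : ℤ, ¬ (p : ℤ) ∣ a ∧ ∀ j, ¬ (p : ℤ) ∣ a + x j) →
    ∃ (r : ℕ) (b' : ℤ) (U0 : Finset ℕ), r.Coprime (WW X S ps) ∧
      (∀ p : ℕ, p.Prime → p ∣ WW X S ps → ∀ j, ¬ (p : ℤ) ∣ r + x j) ∧
      (U0.card : ℝ) ≤ c₃ * Real.log X / Real.log (Real.log X) ∧
      (∀ k ∈ U0, (k : ℝ) ≤ (Real.log X) ^ 2 ∧ b' + k ≠ 0 ∧ ∀ j, b' + k ≠ x j) ∧
      |(b' : ℝ)| ≤ (Real.log X) ^ 2 ∧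
      ∀ m : ℤ, |(m : ℝ)| ≤ c * CH.RR X → m ≠ 0 → (∀ j, m ≠ x j) → (∃ k ∈ U0, m = b' + k) ∨
        (∃ p : ℕ, p.Prime ∧ p ≤ yy X ∧
          ∀ n : ℕ, n ≡ r [MOD WW X S ps] → (p : ℤ) ∣ n + m) := by
  obtain ⟨c, hc, H⟩ := coverR (k + 1) 0 0 le_rfl c₃ hc₃
  refine ⟨c, hc, ?_⟩
  filter_upwards [H, eventually_ge_atTop 4] with X H hX4
  intro ps S hps hS x hadm
  set W := WW X S ps with hW
  have hW0 : 0 < W := H378R2.WW_pos X S ps
  obtain ⟨B0, -, tx, -, htx⟩ := exists_base x 0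
  set t : Fin (k + 1) → ℕ := Fin.cons B0 tx with ht
  have ht0 : t 0 = B0 := rfl
  have hts : ∀ j : Fin k, t j.succ = tx j := fun j => rfl
  have hex : ∀ p : ℕ, ∃ u : ℕ, p.Prime → ∀ j, ¬ p ∣ u + t j := by
    intro p
    by_cases hp : p.Prime
    · obtain ⟨a, ha0, ha⟩ := hadm p hp
      have hp0 : (p : ℤ) ≠ 0 := by exact_mod_cast hp.ne_zero
      obtain ⟨u, hu⟩ : ∃ u : ℕ, (u : ℤ) ≡ a - B0 [ZMOD p] := by
        refine ⟨((a - B0) % (p : ℤ)).toNat, ?_⟩
        rw [Int.toNat_of_nonneg (Int.emod_nonneg _ hp0)]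
        exact Int.mod_modEq _ _
      refine ⟨u, fun _ j => ?_⟩
      refine Fin.cases ?_ (fun i => ?_) j
      · intro hd
        apply ha0
        have h1 : (u : ℤ) + B0 ≡ a [ZMOD p] := by
          have := hu.add_right (B0 : ℤ)
          rwa [sub_add_cancel] at this
        rw [ht0] at hd
        have hd' : (p : ℤ) ∣ (u : ℤ) + B0 := by exact_mod_cast hd
        exact h1.dvd_iff.1 hd'
      · intro hd
        apply ha i
        have h1 : (u : ℤ) + (B0 + x i) ≡ a + x i [ZMOD p] := by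
          have := hu.add_right ((B0 : ℤ) + x i)
          have e : a - B0 + (B0 + x i) = a + x i := by ring
          rwa [e] at this
        rw [hts] at hd
        have hd' : (p : ℤ) ∣ (u : ℤ) + (B0 + x i) := by
          rw [← htx i]
          exact_mod_cast hd
        exact h1.dvd_iff.1 hd'
    · exact ⟨0, fun h => absurd h hp⟩
  choose u hu using hex
  obtain ⟨r, b', U0, g1, g2, g3, g4, -, g6⟩ := H ps S hps hS 1 1 one_ne_zero (by norm_num) (by simp)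
    (by simp) B0 t u (fun p hp _ j => hu p hp j)
  have g10 : (r + B0).Coprime W := g1 0
  refine ⟨r + B0, b' - B0, U0, g10, ?_, g2, ?_, ?_, ?_⟩
  · intro p hp hpW j hd
    have e : ((r + B0 : ℕ) : ℤ) + x j = ((r + t j.succ : ℕ) : ℤ) := by
      push_cast
      rw [hts, htx]
      ring
    rw [e] at hd
    have h3 : p ∣ r + t j.succ := by exact_mod_cast hd
    have := Nat.dvd_gcd h3 hpW
    have h4 : Nat.gcd (r + t j.succ) W = 1 := g1 j.succ
    rw [h4] at this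
    exact hp.one_lt.ne' (Nat.dvd_one.1 this)
  · intro k hk
    obtain ⟨a1, a2⟩ := g3 k hk
    refine ⟨a1, ?_, ?_⟩
    · have h3 := a2 0
      intro h4
      apply h3
      rw [ht0]
      linarith
    · intro j h4
      apply a2 j.succ
      rw [hts, htx]
      linarith
  · exact g4
  · intro m hm hm0 hmh
    rcases g6 m hm (by
      intro j
      refine Fin.cases ?_ (fun i => ?_) j
      · rw [ht0]
        intro h3
        apply hm0
        linarith
      · rw [hts, htx]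
        intro h3
        apply hmh i
        linarith) with ⟨k, hk, h1⟩ | ⟨p, hp, hpy, -, h1⟩
    · left
      refine ⟨k, hk, ?_⟩
      linarith
    · right
      refine ⟨p, hp, hpy, fun n hn => ?_⟩
      -- `p ∣ W`
      have h3 := h1 r (Nat.ModEq.refl _)
      have h4 := h1 (r + W) (by
        show (r + W) % W = r % W
        rw [Nat.add_mod_right])
      have hpW : (p : ℤ) ∣ (W : ℤ) := by
        have h5 := dvd_sub h4 h3
        have e : (1 : ℤ) * ((r + W : ℕ) : ℤ) + B0 + m - (1 * ((r : ℕ) : ℤ) + B0 + m) = (W : ℤ) := by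
          push_cast
          ring
        rwa [e] at h5
      set n0 : ℕ := n + W * B0 - B0 with hn0
      have hle : B0 ≤ n + W * B0 := by
        have : B0 ≤ W * B0 := Nat.le_mul_of_pos_left _ hW0
        omega
      have hn0' : n0 + B0 = n + W * B0 := by omega
      have hmod : n0 ≡ r [MOD W] := by
        have h5 : n0 + B0 ≡ r + B0 [MOD W] := by
          rw [hn0']
          have h6 : n + W * B0 ≡ n [MOD W] := by
            show (n + W * B0) % W = n % W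
            rw [Nat.add_mul_mod_self_left]
          exact h6.trans hn
        exact Nat.ModEq.add_right_cancel' B0 h5
      have h5 := h1 n0 hmod
      have e : (1 : ℤ) * (n0 : ℤ) + B0 + m = (n + m) + W * B0 := by
        have : ((n0 + B0 : ℕ) : ℤ) = ((n + W * B0 : ℕ) : ℤ) := by rw [hn0']
        push_cast at this
        linarith
      rw [e] at h5
      exact (dvd_add_left (Dvd.dvd.mul_right hpW _)).1 h5

end Pool.Agent.J4H73.KT
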