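import Pool.Agent.J4H73.KT.WsumR
import Pool.Agent.J4H73.CG.ExcZ

/-! Tuples of integer shifts: the survivors. -/

set_option autoImplicit false

open Finset Filter

namespace Pool.Agent.J4H73.KT

open Pool.Agent.H378R2 Pool.Agent.H378R2.LSBV Pool.Agent.N610.AP Pool.Agent.Y882
open Pool.Agent.J4H73.BV Pool.Agent.J4H73.CH Pool.Agent.J4H73.CG
open Pool.Agent.H312R2.RG (ClassB ClassA tot)
open Pool.Agent

/-- offsets: a base point making finitely many integers nonnegative -/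
theorem exists_base {m : ℕ} (x : Fin m → ℤ) (z : ℤ) : ∃ (B0 tz : ℕ) (tx : Fin m → ℕ), (tz : ℤ) = B0 + z ∧
    ∀ j, (tx j : ℤ) = B0 + x j := by
  have h1 : ∀ j, -(x j) ≤ ((∑ i, (-(x i)).toNat : ℕ) : ℤ) := by
    intro j
    have h2 : (-(x j)).toNat ≤ ∑ i, (-(x i)).toNat :=
      single_le_sum (f := fun i => (-(x i)).toNat) (fun _ _ => Nat.zero_le _) (mem_univ j)
    have h3 := Int.self_le_toNat (-(x j))
    have h4 : (((-(x j)).toNat : ℕ) : ℤ) ≤ ((∑ i, (-(x i)).toNat : ℕ) : ℤ) := by exact_mod_cast h2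
    linarith
  obtain ⟨S, hS⟩ : ∃ S : ℕ, S = ∑ i, (-(x i)).toNat := ⟨_, rfl⟩
  rw [← hS] at h1
  have h5 := Int.self_le_toNat (-z)
  refine ⟨(-z).toNat + S, (((((-z).toNat + S : ℕ) : ℤ)) + z).toNat,
    fun j => (((((-z).toNat + S : ℕ) : ℤ)) + x j).toNat, ?_, ?_⟩
  · rw [Int.toNat_of_nonneg]
    push_cast
    have : (0 : ℤ) ≤ S := Int.natCast_nonneg _
    linarith
  · intro j
    rw [Int.toNat_of_nonneg]
    push_cast
    have := h1 j
    have h6 : (0 : ℤ) ≤ (((-z).toNat : ℕ) : ℤ) := Int.natCast_nonneg _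
    linarith

open Classical in
/-- the upper bound for the number of primes with further rough shifts -/
theorem survK (k : ℕ) : ∃ C0 : ℕ, 1 ≤ C0 ∧ ∀ (A : ℕ), 2 * (k + 2) ≤ A → ∀ δ : ℝ, 0 < δ → ∃ C : ℝ, 0 < C ∧
    ∀ᶠ X : ℝ in atTop, ∀ (ps : ℕ) (S : Finset ℕ), GoodP C0 ps → GoodS X S →
    ∑ p ∈ pairs X ps ⌊X ^ (497 / 1000 : ℝ)⌋₊ S, LSBV.wt A p.2 * TT X (p.1 * p.2) ≤
      X / (Real.log X) ^ (2 ^ (A + 1) + A + 1) →
    ∀ J : ℕ, 1 ≤ J → X ^ δ ≤ 2 ^ 2 ^ J → ((2 ^ 2 ^ J) ^ (C0 * C0) : ℕ) ≤ ⌊Real.exp (2 * LL X)⌋₊ →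
    (J : ℝ) + 2 ≤ 2 * Real.log X →
    ∀ (r : ℕ) (x : Fin k → ℤ) (z : ℤ), r.Coprime (WW X S ps) → (∀ j, |(x j : ℝ)| ≤ 9 * X) →
    |(z : ℝ)| ≤ 3 * (Real.log X) ^ 2 → z ≠ 0 → (∀ j, z ≠ x j) →
    ∑ n ∈ (Icc 1 ⌊3 * X⌋₊).filter (fun n : ℕ => n ≡ r [MOD WW X S ps] ∧
        ∀ p ∈ N610.AP.PZ X S ps J, (∀ j, ¬ (p : ℤ) ∣ n + x j) ∧ ¬ (p : ℤ) ∣ n + z),
        Phi (n / X) * ArithmeticFunction.vonMangoldt n ≤
      C * (Real.log (Real.log X) / Real.log X) * (LPhi X / (WW X S ps).totient *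
        ∏ p ∈ N610.AP.PZ X S ps J, (1 - gR (WW X S ps) ps (Rx x) p)) +
      2 * Real.log X * (X / ((Nat.totient (WW X S ps) : ℝ) * (Real.log X) ^ A)) := by
  obtain ⟨C0, hC0, HB⟩ := siftB (k + 2)
  refine ⟨C0, hC0, ?_⟩
  intro A hA6 δ hδ
  obtain ⟨CM, hCM, Hup⟩ := prod_upper
  obtain ⟨CW, hCW, HW⟩ := W_phi
  refine ⟨2 * (3 * (CW * CM / δ)), by positivity, ?_⟩
  have t1 := Real.tendsto_log_atTop
  have t2 : Tendsto (fun y : ℝ => Real.log (Real.log y)) atTop atTop := t1.comp t1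
  have t3 : ∀ᶠ X : ℝ in atTop, Real.log X ≤ X ^ δ := by
    have h := (isLittleO_log_rpow_atTop hδ).def (show (0 : ℝ) < 1 by norm_num)
    filter_upwards [h, eventually_ge_atTop (1 : ℝ)] with t ht h1
    rw [Real.norm_eq_abs, abs_of_nonneg (Real.log_nonneg h1), Real.norm_eq_abs,
      abs_of_nonneg (by positivity), one_mul] at ht
    exact ht
  filter_upwards [HW, small_divK (2 * (k + 1)), EPhi_sum A, eventually_ge_atTop 4, t1.eventually_ge_atTop 100,
    t1.eventually_ge_atTop (1000 * C0), t2.eventually_ge_atTop (C0 + 1), t3,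
    Pool.Agent.H398R2.BV.ev_log 1 2 1 (by norm_num)] with
    X HW hsd hEs hX4 hL100 hLZ hL2Z hyJ' hev2
  intro ps S hps hS hpairs J hJ1 hJδ hJC hJL r x z hr hh hz hz0 hzh
  set L := Real.log X with hL
  set W := WW X S ps with hW
  have hW0 : 0 < W := H378R2.WW_pos X S ps
  have hX0 : 0 < X := by linarith
  have hL0 : 0 < L := by linarith
  have hX100 : 100 ≤ X := by
    have := Real.add_one_le_exp L
    rw [hL, Real.exp_log hX0, ← hL] at this
    linarith
  have hps' : ps = 1 ∨ ps.Prime := by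
    rcases hps with h | h
    · exact Or.inl h
    · exact Or.inr h.1
  have hφ0 : (0 : ℝ) < W.totient := by exact_mod_cast Nat.totient_pos.2 hW0
  set P := N610.AP.PZ X S ps J with hP
  have hPZ : ∀ p ∈ P, C0 < p := by
    intro p hp
    by_contra h
    push Not at h
    exact (mem_PZ.1 hp).2.2.1 (Pool.Agent.TH101.RG.small_mem_PW hLZ hL2Z hps le_rfl hS (mem_PZ.1 hp).1 h)
  -- the offset
  obtain ⟨B0, tz, tx, htz, htx⟩ := exists_base x z
  set t : Fin (k + 2) → ℕ := Fin.cons B0 (Fin.cons tz tx) with ht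
  have ht0 : t 0 = B0 := rfl
  have htz' : t 1 = tz := rfl
  have htx' : ∀ j : Fin k, t j.succ.succ = tx j := fun j => rfl
  set r' : ℕ := r + W * B0 - B0 with hr'
  have hr'B : r' + t 0 = r + W * B0 := by
    rw [ht0, hr']
    have : B0 ≤ W * B0 := Nat.le_mul_of_pos_left _ hW0
    omega
  have hmod : r' + t 0 ≡ r [MOD W] := by
    rw [hr'B]
    unfold Nat.ModEq
    rw [Nat.add_mul_mod_self_left]
  have hcop : (r' + t 0).Coprime W := by
    show Nat.gcd _ _ = 1
    rw [hmod.gcd_eq]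
    exact hr
  obtain ⟨bs, hbs1, hbs2⟩ := exists_bs X W hW0
  set e₃ : ℕ → ℝ := fun q => |EPhi X (W * q) (bs q)| with he₃
  have hcl : ClassB X W ps t 0 (fun _ => (1 : ℝ)) 1 e₃ := by
    intro q b hq hb _
    rw [mem_QQ] at hq
    have h1 := hbs2 q hq.1.1 b hb
    have h2 : (W * q).totient = W.totient * q.totient := by
      apply Nat.totient_mul
      exact (Nat.Coprime.coprime_mul_right_right hq.2.2).symm
    refine le_trans (le_of_eq ?_) h1
    rw [EPhi_eq, h2]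
    simp only [mul_one, one_mul]
    congr 2
    push_cast
    rw [mul_assoc, one_div_mul_one_div]
  -- the total error
  have htot : tot (k + 2) X W ps e₃ ≤ X / ((Nat.totient W : ℝ) * L ^ A) := by
    refine le_trans ?_ (hEs ps S hpairs bs hbs1)
    unfold tot
    have hsub : QQ W ps ⌊Real.exp (2 * LL X)⌋₊ ⊆ QQ W ps ⌊X ^ (497 / 1000 : ℝ)⌋₊ := by
      intro q hq
      rw [mem_QQ] at hq ⊢
      refine ⟨⟨hq.1.1, hq.1.2.trans ?_⟩, hq.2⟩
      apply Nat.floor_le_floor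
      rw [Real.rpow_def_of_pos hX0]
      apply Real.exp_le_exp.2
      unfold LL
      rw [← hL]
      linarith
    refine le_trans ?_ (sum_le_sum_of_subset_of_nonneg hsub fun q _ _ => by positivity)
    apply sum_le_sum
    intro q hq
    rw [mem_QQ] at hq
    have h1 : (1 : ℝ) ≤ q.divisors.card := by
      have : 0 < q.divisors.card := card_pos.2 ⟨1, Nat.one_mem_divisors.2 (by omega)⟩
      exact_mod_cast this
    apply mul_le_mul_of_nonneg_right _ (abs_nonneg _)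
    exact pow_le_pow_right₀ h1 (by omega)
  have hkey := HB C0 J X ps S le_rfl hps' hPZ hJC t 0 r' hcop (fun _ => 1) 1 e₃ (fun _ => zero_le_one)
    zero_le_one (fun q => abs_nonneg _) hcl
  rw [← hP, ← hW] at hkey
  set PB := ∏ p ∈ P, (1 - ((OmB t 0 p).card : ℝ) * (1 / ((p : ℝ) - 1))) with hPB
  have hLP0 : 0 ≤ LPhi X := by
    unfold LPhi
    exact Finset.sum_nonneg fun n _ => mul_nonneg (LSBV.Phi_nonneg _) ArithmeticFunction.vonMangoldt_nonneg
  -- membership in OmB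
  have hxj : ∀ j : Fin k, (t j.succ.succ : ℤ) - t 0 = x j := by
    intro j
    rw [htx', ht0, htx]; ring
  have hxz : (t 1 : ℤ) - t 0 = z := by rw [htz', ht0, htz]; ring
  have hrd : ∀ p ∈ P, ∀ (y : ℤ) (j : Fin (k + 2)), (t j : ℤ) - t 0 = y → dres p (t 0) (t j) = rz y p := by
    intro p hp y j hy
    have hp0 := (mem_PZ.1 hp).1.pos
    have key : ∀ n : ℕ, n % p = dres p (t 0) (t j) ↔ n % p = rz y p := by
      intro n
      rw [mod_eq_dres p (t 0) (t j) n hp0, rz_iff y p n hp0]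
      have : (n : ℤ) + t j - t 0 = n + y := by rw [← hy]; ring
      rw [this]
    have h2 := (key (dres p (t 0) (t j))).1 (Nat.mod_eq_of_lt (dres_lt _ _ _ hp0))
    rwa [Nat.mod_eq_of_lt (dres_lt _ _ _ hp0)] at h2
  -- the density
  set m : ℕ := (z * ∏ j, (z - x j)).natAbs with hm
  have hm0 : m ≠ 0 := by
    rw [hm, Int.natAbs_ne_zero]
    exact mul_ne_zero hz0 (prod_ne_zero_iff.2 fun j _ => sub_ne_zero.2 (hzh j))
  have hLX : L ^ 2 ≤ X := by
    rw [one_mul, Real.rpow_one] at hev2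
    exact hev2
  have hz' : |(z : ℝ)| ≤ 3 * X := hz.trans (mul_le_mul_of_nonneg_left hLX (by norm_num))
  have hmL : (m : ℝ) ≤ X ^ (2 * (k + 1)) := by
    have h1 : (m : ℝ) = |(z : ℝ)| * ∏ j, |(z : ℝ) - x j| := by
      have : ((z * ∏ j, (z - x j)).natAbs : ℝ) = |((z * ∏ j, (z - x j) : ℤ) : ℝ)| := by
        rw [Nat.cast_natAbs, Int.cast_abs]
      rw [hm, this]
      push_cast
      rw [abs_mul, abs_prod]
    rw [h1]
    have h12 : 12 * X ≤ X ^ 2 := by
      rw [pow_two]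
      exact mul_le_mul_of_nonneg_right (by linarith) hX0.le
    have h2 : ∀ j, |(z : ℝ) - x j| ≤ X ^ 2 := by
      intro j
      have := abs_sub (z : ℝ) (x j : ℝ)
      have h3 := hh j
      linarith only [this, h3, hz', h12]
    have h3 : |(z : ℝ)| ≤ X ^ 2 := by linarith only [hz', h12, hX0]
    calc |(z : ℝ)| * ∏ j, |(z : ℝ) - x j| ≤ X ^ 2 * ∏ _j : Fin k, X ^ 2 := by
          apply mul_le_mul h3 _ (prod_nonneg fun j _ => abs_nonneg _) (by positivity)
          exact Finset.prod_le_prod (fun j _ => abs_nonneg _) fun j _ => h2 j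
      _ = X ^ (2 * (k + 1)) := by
          rw [prod_const, card_univ, Fintype.card_fin, ← pow_mul, ← pow_add]
          congr 1
          ring
  have hdvm : ∀ p : ℕ, p.Prime → (¬ p ∣ m → (¬ (p : ℤ) ∣ z ∧ ∀ j, ¬ (p : ℤ) ∣ z - x j)) := by
    intro p hp hpm
    rw [hm, Int.natCast_dvd.symm, (Nat.prime_iff_prime_int.1 hp).dvd_mul] at hpm
    push Not at hpm
    refine ⟨hpm.1, fun j hd => hpm.2 ?_⟩
    exact hd.trans (Finset.dvd_prod_of_mem _ (mem_univ j))
  have hfac : ∀ p ∈ P, 0 ≤ 1 - ((OmB t 0 p).card : ℝ) * (1 / ((p : ℝ) - 1)) ∧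
      1 - ((OmB t 0 p).card : ℝ) * (1 / ((p : ℝ) - 1)) ≤
        (1 - gR W ps (Rx x) p) * (if p ∣ m then 1 else 1 - 1 / (p : ℝ)) := by
    intro p hp
    have hpz := mem_PZ.1 hp
    have hpp := hpz.1
    have hp2 : (2 : ℝ) ≤ p := by exact_mod_cast hpp.two_le
    have hp1 : (0 : ℝ) < (p : ℝ) - 1 := by linarith
    have hpW : ¬ p ∣ W := fun hd => hpz.2.2.1 ((prime_dvd_WW hpp).1 hd)
    have hpps : p ≠ ps := hpz.2.2.2
    have hcard : (OmB t 0 p).card ≤ p - 1 := by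
      have h1 : OmB t 0 p ⊆ Icc 1 (p - 1) := by
        intro a ha
        obtain ⟨h2, h3, _⟩ := mem_OmB t 0 p a hpp.pos ha
        rw [mem_Icc]
        omega
      have := card_le_card h1
      rw [Nat.card_Icc] at this
      omega
    have hcard' : ((OmB t 0 p).card : ℝ) ≤ (p : ℝ) - 1 := by
      have h1 : ((OmB t 0 p).card : ℝ) ≤ ((p - 1 : ℕ) : ℝ) := by exact_mod_cast hcard
      rwa [Nat.cast_sub hpp.one_lt.le, Nat.cast_one] at h1
    have hsub : Rx x p ⊆ OmB t 0 p := by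
      intro a ha
      rw [mem_Rx] at ha
      obtain ⟨h1, j, h2⟩ := ha
      unfold OmB
      rw [mem_erase, mem_image]
      exact ⟨h1, j.succ.succ, mem_univ _, (hrd p hp _ _ (hxj j)).trans h2⟩
    constructor
    · rw [sub_nonneg, mul_one_div, div_le_one hp1]
      exact hcard'
    · have hg : gR W ps (Rx x) p = ((Rx x p).card : ℝ) * (1 / ((p : ℝ) - 1)) := by
        unfold gR
        rw [if_neg]
        push Not
        exact ⟨hpW, hpps⟩
      rw [hg]
      have hone : 1 / (p : ℝ) ≤ 1 / ((p : ℝ) - 1) := one_div_le_one_div_of_le hp1 (by linarith)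
      set v := 1 / ((p : ℝ) - 1) with hv
      have hv0 : 0 ≤ v := by positivity
      have hp0' : 0 ≤ 1 / (p : ℝ) := by positivity
      have hc1 : ((Rx x p).card : ℝ) ≤ (OmB t 0 p).card := by exact_mod_cast card_le_card hsub
      by_cases hpm : p ∣ m
      · rw [if_pos hpm, mul_one]
        have := mul_le_mul_of_nonneg_right hc1 hv0
        linarith
      · rw [if_neg hpm]
        obtain ⟨g1, g2⟩ := hdvm p hpp hpm
        have hz1 : rz z p ∈ OmB t 0 p := by
          unfold OmB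
          rw [mem_erase, mem_image]
          refine ⟨?_, 1, mem_univ _, hrd p hp _ _ hxz⟩
          intro h0
          apply g1
          have h7 := (rz_iff z p 0 hpp.pos).1 (by rw [Nat.zero_mod, h0])
          rwa [Nat.cast_zero, zero_add] at h7
        have hz2 : rz z p ∉ Rx x p := by
          intro h0
          rw [mem_Rx] at h0
          obtain ⟨_, j, h1⟩ := h0
          apply g2 j
          have e1 := (rz_iff z p (rz z p) hpp.pos).1 (Nat.mod_eq_of_lt (rz_lt _ _ hpp.pos))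
          have e2 := (rz_iff (x j) p (rz z p) hpp.pos).1 (by
            rw [Nat.mod_eq_of_lt (rz_lt _ _ hpp.pos), h1])
          have := dvd_sub e1 e2
          have e3 : ((rz z p : ℕ) : ℤ) + z - ((rz z p : ℕ) + x j) = z - x j := by ring
          rwa [e3] at this
        have hc2 : (Rx x p).card + 1 ≤ (OmB t 0 p).card := by
          rw [← card_insert_of_notMem hz2]
          exact card_le_card (insert_subset hz1 hsub)
        have hc3 : ((Rx x p).card : ℝ) + 1 ≤ (OmB t 0 p).card := by exact_mod_cast hc2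
        have e1 := mul_le_mul_of_nonneg_right hc3 hv0
        have e2 : ((Rx x p).card : ℝ) * v ≤ 1 := by
          have e3 := mul_le_mul_of_nonneg_right hc1 hv0
          have e4 : ((OmB t 0 p).card : ℝ) * v ≤ 1 := by
            rw [hv, mul_one_div, div_le_one hp1]
            exact hcard'
          linarith
        have e5 : 0 ≤ ((Rx x p).card : ℝ) * v := mul_nonneg (Nat.cast_nonneg _) hv0
        have e6 : (1 - ((Rx x p).card : ℝ) * v) * (1 / (p : ℝ)) ≤ 1 * v :=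
          mul_le_mul (by linarith) hone hp0' zero_le_one
        have e7 : (1 - ((Rx x p).card : ℝ) * v) * (1 - 1 / (p : ℝ)) =
            (1 - ((Rx x p).card : ℝ) * v) - (1 - ((Rx x p).card : ℝ) * v) * (1 / (p : ℝ)) := by ring
        rw [e7]
        linarith
  set PG := ∏ p ∈ P, (1 - gR W ps (Rx x) p) with hPG
  have hPG0 : 0 ≤ PG := prod_nonneg fun p hp => (gR_Rx_le_one W ps x p (mem_PZ.1 hp).1).1
  have hPB0 : 0 ≤ PB := prod_nonneg fun p hp => (hfac p hp).1
  have hPBle : PB ≤ PG * (3 * ∏ p ∈ P, (1 - 1 / (p : ℝ))) := by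
    have e1 : PB ≤ PG * ∏ p ∈ P, (if p ∣ m then 1 else 1 - 1 / (p : ℝ)) := by
      rw [hPG, ← prod_mul_distrib]
      exact prod_le_prod (fun p hp => (hfac p hp).1) fun p hp => (hfac p hp).2
    refine e1.trans ?_
    apply mul_le_mul_of_nonneg_left _ hPG0
    have e2 : ∏ p ∈ P, (if p ∣ m then 1 else 1 - 1 / (p : ℝ)) =
        ∏ p ∈ P.filter (fun p => ¬ p ∣ m), (1 - 1 / (p : ℝ)) := by
      rw [prod_filter]
      apply prod_congr rfl
      intro p _
      by_cases hpm : p ∣ m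
      · rw [if_pos hpm, if_neg (not_not.2 hpm)]
      · rw [if_neg hpm, if_pos hpm]
    have e3 : ∏ p ∈ P, (1 - 1 / (p : ℝ)) = (∏ p ∈ P.filter (fun p => p ∣ m), (1 - 1 / (p : ℝ))) *
        ∏ p ∈ P.filter (fun p => ¬ p ∣ m), (1 - 1 / (p : ℝ)) :=
      (prod_filter_mul_prod_filter_not P (fun p => p ∣ m) _).symm
    rw [e2, e3]
    have e4 := hsd ps S hS J m hm0 hmL
    rw [← hP] at e4
    have e5 : 0 ≤ ∏ p ∈ P.filter (fun p => ¬ p ∣ m), (1 - 1 / (p : ℝ)) :=
      prod_nonneg fun p hp => (fac_nn (mem_PZ.1 (mem_filter.1 hp).1).1).1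
    have e6 := mul_le_mul_of_nonneg_right e4 e5
    linarith
  -- Mertens
  have hzr : X ^ δ ≤ ((2 ^ 2 ^ J : ℕ) : ℝ) := by push_cast; exact hJδ
  have hyJ : yy X ≤ 2 ^ 2 ^ J := by
    have h1 : (yy X : ℝ) ≤ L / 1000 := Nat.floor_le (by positivity)
    have h2 : (yy X : ℝ) ≤ ((2 ^ 2 ^ J : ℕ) : ℝ) := by linarith
    exact_mod_cast h2
  have hlz : δ * L ≤ Real.log ((2 ^ 2 ^ J : ℕ) : ℝ) := by
    rw [← Real.log_rpow hX0]
    exact Real.log_le_log (by positivity) hzr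
  have hup := Hup X S ps J hJ1 hyJ
  rw [← hP, ← hW] at hup
  set PU := ∏ p ∈ P, (1 - 1 / (p : ℝ)) with hPU
  have hPU0 : 0 ≤ PU := prod_nonneg fun p hp => (fac_nn (mem_PZ.1 hp).1).1
  have hl0 : 0 < Real.log L := by
    have : (0 : ℝ) ≤ C0 := Nat.cast_nonneg _
    linarith
  have hPUle : PU ≤ CW * CM / δ * (Real.log L / L) := by
    have h1 : (W.totient : ℝ) * PU ≤ (W.totient : ℝ) * (CW * CM / δ * (Real.log L / L)) := by
      calc (W.totient : ℝ) * PU ≤ W * (CM / Real.log ((2 ^ 2 ^ J : ℕ) : ℝ)) := hup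
        _ ≤ W * (CM / (δ * L)) := by gcongr
        _ ≤ (CW * Real.log L * W.totient) * (CM / (δ * L)) :=
            mul_le_mul_of_nonneg_right (HW ps S) (by positivity)
        _ = _ := by field_simp
    exact le_of_mul_le_mul_left h1 hφ0
  -- conclusion
  have hsum : ∑ n ∈ (Icc 1 ⌊3 * X⌋₊).filter (fun n : ℕ => n ≡ r [MOD W] ∧
        ∀ p ∈ P, (∀ j, ¬ (p : ℤ) ∣ n + x j) ∧ ¬ (p : ℤ) ∣ n + z), Phi (n / X) * ArithmeticFunction.vonMangoldt n ≤
      ∑ n ∈ ((Icc 1 ⌊3 * X⌋₊).filter (fun n => n ≡ r' + t 0 [MOD W])).filter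
        (fun n => ∀ p ∈ P, n % p ∉ OmB t 0 p),
        Phi (n / X) * ArithmeticFunction.vonMangoldt n * (fun _ => (1 : ℝ)) ((n : ℤ) - t 0) := by
    simp only [mul_one]
    apply sum_le_sum_of_subset_of_nonneg
    · intro n hn
      rw [mem_filter] at hn
      rw [mem_filter, mem_filter]
      refine ⟨⟨hn.1, hn.2.1.trans hmod.symm⟩, ?_⟩
      intro p hp hmem
      have hp0 := (mem_PZ.1 hp).1.pos
      obtain ⟨_, _, l, hl, hl2⟩ := mem_OmB t 0 p _ hp0 hmem
      obtain ⟨g1, g2⟩ := hn.2.2 p hp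
      have h3 := (mod_eq_dres p (t 0) (t l) n hp0).1 hl2
      have h4 : (p : ℤ) ∣ (n : ℤ) + ((t l : ℤ) - t 0) := by
        have : (n : ℤ) + ((t l : ℤ) - t 0) = (n : ℤ) + t l - t 0 := by ring
        rw [this]
        exact h3
      refine Fin.cases (fun h _ => h rfl) (fun l' => Fin.cases (fun _ h5 => ?_) (fun j _ h5 => ?_) l') l hl h4
      · have h6 : (t (Fin.succ 0) : ℤ) - t 0 = z := hxz
        rw [h6] at h5
        exact g2 h5
      · rw [hxj j] at h5
        exact g1 j h5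
    · intro n _ _
      exact mul_nonneg (LSBV.Phi_nonneg _) ArithmeticFunction.vonMangoldt_nonneg
  refine hsum.trans ?_
  have h2 := (abs_le.1 hkey).2
  have hM0 : 0 ≤ 1 * (LPhi X * (1 / (W.totient : ℝ))) * PB := by positivity
  have h3 : (1 / 2 : ℝ) ^ C0 * (1 * (LPhi X * (1 / (W.totient : ℝ))) * PB) ≤
      1 * (1 * (LPhi X * (1 / (W.totient : ℝ))) * PB) :=
    mul_le_mul_of_nonneg_right (pow_le_one₀ (by norm_num) (by norm_num)) hM0
  have htot0 : 0 ≤ tot (k + 2) X W ps e₃ := by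
    unfold tot
    apply sum_nonneg
    intro q _
    have h9 : 0 ≤ e₃ q := abs_nonneg _
    exact mul_nonneg (pow_nonneg (Nat.cast_nonneg _) _) h9
  have h4 : ((J : ℝ) + 2) * tot (k + 2) X W ps e₃ ≤ 2 * L * (X / ((Nat.totient W : ℝ) * L ^ A)) :=
    mul_le_mul hJL htot htot0 (by positivity)
  have h5 : 2 * (1 * (LPhi X * (1 / (W.totient : ℝ))) * PB) ≤
      2 * (3 * (CW * CM / δ)) * (Real.log L / L) * (LPhi X / W.totient * PG) := by
    have h6 : PB ≤ PG * (3 * (CW * CM / δ * (Real.log L / L))) :=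
      hPBle.trans (mul_le_mul_of_nonneg_left (by linarith) hPG0)
    calc 2 * (1 * (LPhi X * (1 / (W.totient : ℝ))) * PB) ≤
        2 * (1 * (LPhi X * (1 / (W.totient : ℝ))) * (PG * (3 * (CW * CM / δ * (Real.log L / L))))) := by
          gcongr
      _ = _ := by ring
  linarith

end Pool.Agent.J4H73.KT
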