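import Pool.Agent.J4H73.KT.Res
import Pool.Agent.W45.UNFLA

/-! The sum over a residue class, weighted by a combination of conditions `n % p ∈ R p`. -/

set_option autoImplicit false

open Finset Filter

namespace Pool.Agent.J4H73.KT

open Pool.Agent.H378R2 Pool.Agent.H378R2.LSBV Pool.Agent.N610.AP Pool.Agent.Y882
open Pool.Agent.J4H73.BV Pool.Agent.J4H73.CH Pool.Agent.J4H73.CG
open Pool.Agent

open Classical in
/-- one set of primes: the worst class -/
theorem oneT (W ps : ℕ) (A : Finset ℕ) (a : ℕ → ℝ) (M : ℝ) (r0 : ℕ) (hr0 : r0.Coprime W)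
    (R : ℕ → Finset ℕ) (K : ℕ) (T : Finset ℕ) (hT : ∀ p ∈ T, p.Prime ∧ ¬ p ∣ W ∧ p ≠ ps)
    (hR : ∀ p ∈ T, ∀ b ∈ R p, b ≠ 0 ∧ b < p) (hK : ∀ p ∈ T, (R p).card ≤ K) :
    ∃ b : ℕ, b.Coprime (W * ∏ p ∈ T, p) ∧
      |∑ n ∈ A.filter (fun n => n ≡ r0 [MOD W] ∧ ∀ p ∈ T, p ≠ ps ∧ n % p ∈ R p), a n -
        M / (Nat.totient W : ℝ) * ∏ p ∈ T, gR W ps R p| ≤
      (K : ℝ) ^ T.card * |∑ n ∈ A.filter (fun n => n ≡ b [MOD W * ∏ p ∈ T, p]), a n -
        M / (Nat.totient (W * ∏ p ∈ T, p) : ℝ)| := by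
  set S := A.filter (fun n => n ≡ r0 [MOD W]) with hS
  have hset : A.filter (fun n => n ≡ r0 [MOD W] ∧ ∀ p ∈ T, p ≠ ps ∧ n % p ∈ R p) =
      S.filter (fun n => ∀ p ∈ T, n % p ∈ R p) := by
    rw [hS, filter_filter]
    apply filter_congr
    intro n _
    apply and_congr_right
    intro _
    constructor
    · intro h p hp
      exact (h p hp).2
    · intro h p hp
      exact ⟨(hT p hp).2.2, h p hp⟩
  have hg : M / (Nat.totient W : ℝ) * ∏ p ∈ T, gR W ps R p =
      (∏ p ∈ T, ((R p).card : ℝ)) * (M / (Nat.totient W : ℝ) * ∏ p ∈ T, (1 / ((p : ℝ) - 1))) := by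
    have h1 : ∏ p ∈ T, gR W ps R p = (∏ p ∈ T, ((R p).card : ℝ)) * ∏ p ∈ T, (1 / ((p : ℝ) - 1)) := by
      rw [← prod_mul_distrib]
      apply prod_congr rfl
      intro p hp
      unfold gR
      rw [if_neg]
      push Not
      exact (hT p hp).2
    rw [h1]
    ring
  have hφ : M / (Nat.totient (W * ∏ p ∈ T, p) : ℝ) = M / (Nat.totient W : ℝ) * ∏ p ∈ T, (1 / ((p : ℝ) - 1)) := by
    have h4 : (W * ∏ p ∈ T, p).totient = W.totient * (∏ p ∈ T, p).totient := by
      apply Nat.totient_mul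
      rw [Nat.coprime_prod_right_iff]
      intro p hp
      rw [Nat.coprime_comm, Nat.Prime.coprime_iff_not_dvd (hT p hp).1]
      exact (hT p hp).2.1
    rw [h4]
    push_cast
    rw [totient_primes T (fun p hp => (hT p hp).1), Finset.prod_div_distrib, Finset.prod_const_one,
      div_mul_div_comm, mul_one]
  rw [hset, hg]
  -- the classes
  have hcl : ∀ c : ℕ → ℕ, (∀ p ∈ T, c p ∈ R p) → ∃ b : ℕ, b.Coprime (W * ∏ p ∈ T, p) ∧
      S.filter (fun n => ∀ p ∈ T, n % p = c p) = A.filter (fun n => n ≡ b [MOD W * ∏ p ∈ T, p]) := by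
    intro c hc
    obtain ⟨b', hb'⟩ := crt_class W r0 T c (fun p hp => ⟨(hT p hp).1, (hT p hp).2.1⟩)
      (fun p hp => (hR p hp _ (hc p hp)).2)
    obtain ⟨hb1, hb2⟩ := (hb' b').2 (Nat.ModEq.refl _)
    refine ⟨b', ?_, ?_⟩
    · rw [Nat.coprime_mul_iff_right]
      constructor
      · have h1 : Nat.gcd b' W = Nat.gcd r0 W := hb1.gcd_eq
        show Nat.gcd b' W = 1
        rw [h1]
        exact hr0
      · rw [Nat.coprime_prod_right_iff]
        intro p hp
        rw [Nat.coprime_comm, Nat.Prime.coprime_iff_not_dvd (hT p hp).1]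
        intro hd
        apply (hR p hp _ (hc p hp)).1
        rw [← hb2 p hp]
        exact Nat.mod_eq_zero_of_dvd hd
    · rw [hS, filter_filter]
      apply filter_congr
      intro n _
      exact hb' n
  by_cases hne : (T.pi R).Nonempty
  · obtain ⟨c0, hc0, hmax⟩ := exists_max_image (T.pi R)
      (fun c => |∑ n ∈ S.filter (fun n => ∀ p ∈ T, n % p = if h : p ∈ T then c p h else 0), a n -
        M / (Nat.totient W : ℝ) * ∏ p ∈ T, (1 / ((p : ℝ) - 1))|) hne
    obtain ⟨b, hb1, hb2⟩ := hcl (fun p => if h : p ∈ T then c0 p h else 0) (by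
      intro p hp
      rw [Finset.mem_pi] at hc0
      simp only [hp, dif_pos]
      exact hc0 p hp)
    refine ⟨b, hb1, ?_⟩
    rw [← hb2, hφ]
    apply Pool.Agent.W45.UNFLA.est S T a R (M / (Nat.totient W : ℝ)) (∏ p ∈ T, (1 / ((p : ℝ) - 1))) _ K
      (abs_nonneg _) hK
    intro c hc
    have h1 := hmax (fun p _ => c p) (by
      rw [Finset.mem_pi]
      exact hc)
    refine le_trans (le_of_eq ?_) h1
    beta_reduce
    congr 2
    apply sum_congr _ (fun _ _ => rfl)
    apply filter_congr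
    intro n _
    apply forall₂_congr
    intro p hp
    rw [dif_pos hp]
  · refine ⟨1, Nat.coprime_one_left _, ?_⟩
    have h1 := Pool.Agent.W45.UNFLA.est S T a R (M / (Nat.totient W : ℝ)) (∏ p ∈ T, (1 / ((p : ℝ) - 1))) 0 K
      le_rfl hK (by
        intro c hc
        exfalso
        apply hne
        exact ⟨fun p _ => c p, Finset.mem_pi.2 hc⟩)
    rw [mul_zero] at h1
    exact h1.trans (mul_nonneg (by positivity) (abs_nonneg _))

open Classical in
theorem wsumR (W ps : ℕ) (hps : ps = 1 ∨ ps.Prime) (A : Finset ℕ) (a : ℕ → ℝ) (M : ℝ)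
    (r0 : ℕ) (P : Finset ℕ) (hP : ∀ p ∈ P, p.Prime) (R : ℕ → Finset ℕ)
    (hR : ∀ p ∈ P, ∀ b ∈ R p, b ≠ 0 ∧ b < p) (K : ℕ) (hK : ∀ p ∈ P, (R p).card ≤ K)
    (hW : ∀ p ∈ P, p ∣ W → r0 % p ∉ R p) (hr0 : r0.Coprime W)
    (Q : ℕ) (c : Finset ℕ → ℝ) (C : ℝ) (hC : ∀ T, |c T| ≤ C)
    (hcQ : ∀ T ⊆ P, c T ≠ 0 → ∏ p ∈ T, p ≤ Q) (B : ℝ)
    (hE : ∀ b : ℕ → ℕ, (∀ q, 1 ≤ q → (b q).Coprime (W * q)) → ∑ q ∈ QQ W ps Q, (K : ℝ) ^ q.primeFactors.card *
      |∑ n ∈ A.filter (fun n => n ≡ b q [MOD W * q]), a n - M / (Nat.totient (W * q) : ℝ)| ≤ B) :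
    |∑ n ∈ A.filter (fun n => n ≡ r0 [MOD W]), a n *
        VV P c (fun p => if p ≠ ps ∧ n % p ∈ R p then 1 else 0) -
      M / (Nat.totient W : ℝ) * VV P c (gR W ps R)| ≤ C * B := by
  have hC0 : 0 ≤ C := (abs_nonneg _).trans (hC ∅)
  -- the sums
  set S : Finset ℕ → ℝ := fun T => ∑ n ∈ A.filter (fun n => n ≡ r0 [MOD W] ∧ ∀ p ∈ T, p ≠ ps ∧ n % p ∈ R p), a n
    with hS
  have e1 : ∑ n ∈ A.filter (fun n => n ≡ r0 [MOD W]), a n *
        VV P c (fun p => if p ≠ ps ∧ n % p ∈ R p then 1 else 0) = ∑ T ∈ P.powerset, c T * S T := by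
    unfold VV
    simp_rw [mul_sum]
    rw [sum_comm]
    apply sum_congr rfl
    intro T _
    simp only [hS]
    rw [mul_sum, sum_filter, sum_filter]
    apply sum_congr rfl
    intro n _
    by_cases h1 : n ≡ r0 [MOD W]
    · rw [if_pos h1, Finset.prod_ite_zero]
      by_cases h2 : ∀ p ∈ T, p ≠ ps ∧ n % p ∈ R p
      · rw [if_pos h2, if_pos (show n ≡ r0 [MOD W] ∧ ∀ p ∈ T, p ≠ ps ∧ n % p ∈ R p from ⟨h1, h2⟩)]
        simp
        ring
      · rw [if_neg h2, if_neg (show ¬ (n ≡ r0 [MOD W] ∧ ∀ p ∈ T, p ≠ ps ∧ n % p ∈ R p) from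
          fun h => h2 h.2)]
        simp
    · rw [if_neg h1, if_neg (fun h => h1 h.1)]
  have e2 : M / (Nat.totient W : ℝ) * VV P c (gR W ps R) =
      ∑ T ∈ P.powerset, c T * (M / (Nat.totient W : ℝ) * ∏ p ∈ T, gR W ps R p) := by
    unfold VV
    rw [mul_sum]
    apply sum_congr rfl
    intro T _
    ring
  rw [e1, e2, ← sum_sub_distrib]
  refine (abs_sum_le_sum_abs _ _).trans ?_
  -- the good sets
  set G : Finset ℕ → Prop := fun T => T ⊆ P ∧ ∀ p ∈ T, p.Prime ∧ ¬ p ∣ W ∧ p ≠ ps with hG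
  have hb : ∀ T : Finset ℕ, ∃ b : ℕ, G T → (b.Coprime (W * ∏ p ∈ T, p) ∧
      |S T - M / (Nat.totient W : ℝ) * ∏ p ∈ T, gR W ps R p| ≤
      (K : ℝ) ^ T.card * |∑ n ∈ A.filter (fun n => n ≡ b [MOD W * ∏ p ∈ T, p]), a n -
        M / (Nat.totient (W * ∏ p ∈ T, p) : ℝ)|) := by
    intro T
    by_cases hT : G T
    · obtain ⟨b, hb1, hb2⟩ := oneT W ps A a M r0 hr0 R K T hT.2 (fun p hp => hR p (hT.1 hp))
        (fun p hp => hK p (hT.1 hp))
      exact ⟨b, fun _ => ⟨hb1, hb2⟩⟩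
    · exact ⟨0, fun h => absurd h hT⟩
  choose b hb using hb
  set bq : ℕ → ℕ := fun q => if G q.primeFactors ∧ Squarefree q then b q.primeFactors else 1 with hbq
  have hbq1 : ∀ q, 1 ≤ q → (bq q).Coprime (W * q) := by
    intro q hq
    simp only [hbq]
    split_ifs with h
    · have h1 := (hb _ h.1).1
      rwa [Nat.prod_primeFactors_of_squarefree h.2] at h1
    · exact Nat.coprime_one_left _
  have hB := hE bq hbq1
  -- the terms
  set Eq : ℕ → ℝ := fun q => (K : ℝ) ^ q.primeFactors.card *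
    |∑ n ∈ A.filter (fun n => n ≡ bq q [MOD W * q]), a n -
    M / (Nat.totient (W * q) : ℝ)| with hEq
  have hpf : ∀ T : Finset ℕ, (∀ p ∈ T, p.Prime) → (∏ p ∈ T, p).primeFactors = T :=
    fun T hT => Nat.primeFactors_prod fun p hp => hT p hp
  have hterm : ∀ T ∈ P.powerset, |c T * S T - c T * (M / (Nat.totient W : ℝ) * ∏ p ∈ T, gR W ps R p)| ≤
      C * (if G T ∧ c T ≠ 0 then Eq (∏ p ∈ T, p) else 0) := by
    intro T hT
    rw [mem_powerset] at hT
    rw [← mul_sub, abs_mul]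
    by_cases hc : c T = 0
    · rw [hc, abs_zero, zero_mul]
      simp
    apply mul_le_mul (hC T) _ (abs_nonneg _) hC0
    by_cases hGT : G T
    · rw [if_pos ⟨hGT, hc⟩]
      have h3 : bq (∏ p ∈ T, p) = b T := by
        simp only [hbq]
        rw [hpf T (fun p hp => (hGT.2 p hp).1), if_pos ⟨hGT, prod_primes_sqfree T fun p hp => (hGT.2 p hp).1⟩]
      simp only [hEq]
      rw [h3, hpf T (fun p hp => (hGT.2 p hp).1)]
      exact (hb T hGT).2
    · rw [if_neg (fun h => hGT h.1)]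
      apply le_of_eq
      simp only [hG] at hGT
      push Not at hGT
      obtain ⟨p, hp, hpc⟩ := hGT hT
      have hpP := hT hp
      have hpp := hP p hpP
      have hg0 : gR W ps R p = 0 := by
        unfold gR
        rw [if_pos]
        by_contra hcon
        push Not at hcon
        exact hcon.2 (hpc hpp hcon.1)
      rw [prod_eq_zero hp hg0, mul_zero, sub_zero]
      have : S T = 0 := by
        simp only [hS]
        rw [sum_eq_zero]
        intro n hn
        rw [mem_filter] at hn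
        exfalso
        by_cases h1 : p ∣ W
        · apply hW p hpP h1
          have h2 := (hn.2.2 p hp).2
          have h3 : n % p = r0 % p := hn.2.1.of_dvd h1
          rwa [h3] at h2
        · exact (hn.2.2 p hp).1 (hpc hpp h1)
      rw [this, abs_zero]
  refine (sum_le_sum hterm).trans ?_
  rw [← mul_sum]
  apply mul_le_mul_of_nonneg_left _ hC0
  have hEq0 : ∀ q, 0 ≤ Eq q := fun q => mul_nonneg (by positivity) (abs_nonneg _)
  refine le_trans ?_ hB
  rw [← sum_filter, ← sum_image (f := Eq) (g := fun T : Finset ℕ => ∏ p ∈ T, p)]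
  · apply sum_le_sum_of_subset_of_nonneg
    · intro q hq
      rw [mem_image] at hq
      obtain ⟨T, hT, rfl⟩ := hq
      rw [mem_filter, mem_powerset] at hT
      obtain ⟨h1, h2, h3⟩ := hT
      rw [mem_QQ]
      refine ⟨⟨prod_pos fun p hp => (h2.2 p hp).1.pos, hcQ T h1 h3⟩,
        prod_primes_sqfree T fun p hp => (h2.2 p hp).1, ?_⟩
      rw [Nat.coprime_prod_left_iff]
      intro p hp
      obtain ⟨h4, h5, h6⟩ := h2.2 p hp
      rw [Nat.Prime.coprime_iff_not_dvd h4]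
      intro hd
      rcases (Nat.Prime.dvd_mul h4).1 hd with hd | hd
      · exact h5 hd
      · rcases hps with h | h
        · rw [h] at hd
          exact h4.one_lt.ne' (Nat.dvd_one.1 hd)
        · exact h6 ((Nat.prime_dvd_prime_iff_eq h4 h).1 hd)
    · intro q _ _
      exact hEq0 q
  · intro T hT1 T' hT2 he'
    rw [mem_coe, mem_filter] at hT1 hT2
    have e1 := hpf T (fun p hp => (hT1.2.1.2 p hp).1)
    have e2 := hpf T' (fun p hp => (hT2.2.1.2 p hp).1)
    rw [← e1, ← e2]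
    exact congrArg Nat.primeFactors he'

/-- powers of `K` and powers of the divisor function -/
theorem pow_omega (K A q : ℕ) (hK : K ≤ 2 ^ A) (hq : Squarefree q) :
    (K : ℝ) ^ q.primeFactors.card ≤ (q.divisors.card : ℝ) ^ A := by
  have h1 : q.divisors.card = 2 ^ q.primeFactors.card := by
    have h2 := (prod_primes q.primeFactors fun p hp => Nat.prime_of_mem_primeFactors hp).1
    rwa [Nat.prod_primeFactors_of_squarefree hq] at h2
  rw [h1]
  push_cast
  have h2 : (K : ℝ) ≤ 2 ^ A := by exact_mod_cast hK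
  calc (K : ℝ) ^ q.primeFactors.card ≤ (2 ^ A) ^ q.primeFactors.card := pow_le_pow_left₀ (Nat.cast_nonneg _) h2 _
    _ = (2 ^ q.primeFactors.card) ^ A := by rw [← pow_mul, ← pow_mul, mul_comm]

open Classical in
theorem mainK (d : ℝ) (hd0 : 0 ≤ d) (hd : d ≤ 1 / 2) (A : ℕ) : ∀ᶠ X : ℝ in atTop,
    ∀ (ps : ℕ) (S : Finset ℕ), (ps = 1 ∨ ps.Prime) →
    ∑ p ∈ pairs X ps ⌊X ^ (497 / 1000 : ℝ)⌋₊ S, LSBV.wt A p.2 *
        TG d X (fun n => ArithmeticFunction.vonMangoldt n) (p.1 * p.2) ≤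
      X / (Real.log X) ^ (2 ^ (A + 1) + A + 1) →
    ∀ (R : ℕ → Finset ℕ) (K : ℕ), K ≤ 2 ^ A → ∀ (r0 : ℕ), r0.Coprime (WW X S ps) →
    ∀ P : Finset ℕ, (∀ p ∈ P, p.Prime) → (∀ p ∈ P, ∀ b ∈ R p, b ≠ 0 ∧ b < p) → (∀ p ∈ P, (R p).card ≤ K) →
    (∀ p ∈ P, p ∣ WW X S ps → r0 % p ∉ R p) →
    ∀ (c : Finset ℕ → ℝ) (C : ℝ), (∀ T, |c T| ≤ C) →
    (∀ T ⊆ P, c T ≠ 0 → ((∏ p ∈ T, p : ℕ) : ℝ) ≤ X ^ (497 / 1000 : ℝ)) →
    |∑ n ∈ (Icc 1 ⌊3 * X⌋₊).filter (fun n => n ≡ r0 [MOD WW X S ps]),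
        Ps d X n * ArithmeticFunction.vonMangoldt n *
          VV P c (fun p => if p ≠ ps ∧ n % p ∈ R p then 1 else 0) -
      LPs d X / (Nat.totient (WW X S ps) : ℝ) * VV P c (gR (WW X S ps) ps R)| ≤
      C * (X / ((Nat.totient (WW X S ps) : ℝ) * (Real.log X) ^ A)) := by
  filter_upwards [EPs_sum d hd0 hd A] with X hEs
  intro ps S hps hpairs R K hKA r0 hr0 P hP hR hK hRW c C hC hcQ
  set W := WW X S ps with hW
  refine wsumR W ps hps (Icc 1 ⌊3 * X⌋₊) (fun n => Ps d X n * ArithmeticFunction.vonMangoldt n)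
    (LPs d X) r0 P hP R hR K hK hRW hr0 ⌊X ^ (497 / 1000 : ℝ)⌋₊ c C hC
    (fun T hT h => Nat.le_floor (hcQ T hT h)) _ ?_
  intro b hb
  refine le_trans ?_ (hEs ps S hpairs b hb)
  apply sum_le_sum
  intro q hq
  rw [mem_QQ] at hq
  exact mul_le_mul_of_nonneg_right (pow_omega K A q hKA hq.2.1) (abs_nonneg _)

/-- the primes dividing a number `≤ X ^ D` do not matter -/
theorem small_divK (D : ℕ) : ∀ᶠ X : ℝ in atTop, ∀ (ps : ℕ) (S : Finset ℕ), GoodS X S → ∀ (J m : ℕ),
    m ≠ 0 → (m : ℝ) ≤ X ^ D →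
    1 ≤ 3 * ∏ p ∈ (N610.AP.PZ X S ps J).filter (fun p => p ∣ m), (1 - 1 / (p : ℝ)) := by
  have t1 := Real.tendsto_log_atTop
  have t2 : Tendsto (fun y : ℝ => Real.log (Real.log y)) atTop atTop := t1.comp t1
  filter_upwards [t1.eventually_ge_atTop 4000, t2.eventually_ge_atTop (8000 * (D + 1) + Real.log 1000),
    eventually_gt_atTop 1] with X h2 h3 hX1
  intro ps S hS J m hm hmL
  set L := Real.log X with hL
  set F := (N610.AP.PZ X S ps J).filter (fun p => p ∣ m) with hF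
  have hFp : ∀ p ∈ F, p.Prime := fun p hp => (mem_PZ.1 (mem_filter.1 hp).1).1
  have hm1 : 1 ≤ m := Nat.pos_of_ne_zero hm
  have hX0 : 0 < X := by linarith
  have hlogm : Real.log m ≤ D * L := by
    have : Real.log (m : ℝ) ≤ Real.log (X ^ D) := Real.log_le_log (by exact_mod_cast hm1) hmL
    rwa [Real.log_pow] at this
  have hl1000 : 0 < Real.log 1000 := Real.log_pos (by norm_num)
  have hD0 : (0 : ℝ) ≤ D := Nat.cast_nonneg _
  have hl : 8000 * ((D : ℝ) + 1) ≤ Real.log (L / 1000) := by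
    rw [Real.log_div (by linarith) (by norm_num)]
    linarith
  have hsum : ∑ p ∈ F, (1 : ℝ) / p ≤ 1 / 4 := by
    have e1 : ∑ p ∈ F, (1 : ℝ) / p ≤ ∑ p ∈ S, (1 : ℝ) / p + ∑ p ∈ F.filter (fun p => yy X < p), (1 : ℝ) / p := by
      rw [← sum_filter_add_sum_filter_not F (fun p => yy X < p), add_comm]
      apply add_le_add_left
      apply sum_le_sum_of_subset_of_nonneg
      · intro p hp
        rw [mem_filter] at hp
        have h4 := mem_PZ.1 (mem_filter.1 hp.1).1
        by_contra h5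
        apply h4.2.2.1
        rw [mem_PW]
        exact ⟨not_lt.1 hp.2, h4.1, h5, h4.2.2.2⟩
      · intro p _ _
        positivity
    have e2 : ∑ p ∈ S, (1 : ℝ) / p ≤ 1 / 8 := by
      refine hS.2.trans ?_
      rw [div_le_div_iff₀ (by nlinarith) (by norm_num)]
      nlinarith
    have e3 : ∑ p ∈ F.filter (fun p => yy X < p), (1 : ℝ) / p ≤ 1 / 8 := by
      have hpL : ∀ p ∈ F.filter (fun p => yy X < p), L / 1000 ≤ p := by
        intro p hp
        rw [mem_filter] at hp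
        have h4 : (yy X : ℝ) + 1 ≤ p := by exact_mod_cast hp.2
        have h5 : L / 1000 < (yy X : ℝ) + 1 := Nat.lt_floor_add_one _
        linarith
      have e4 : ∑ p ∈ F.filter (fun p => yy X < p), (1 : ℝ) / p ≤
          (F.filter (fun p => yy X < p)).card • (1000 / L) := by
        apply sum_le_card_nsmul
        intro p hp
        rw [show 1000 / L = 1 / (L / 1000) by field_simp]
        exact one_div_le_one_div_of_le (by positivity) (hpL p hp)
      have e5 : ((F.filter (fun p => yy X < p)).card : ℝ) * Real.log (L / 1000) ≤ D * L := by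
        have h4 : ∏ p ∈ F.filter (fun p => yy X < p), p ∣ m := by
          apply Finset.prod_primes_dvd
          · intro p hp
            exact (hFp p (mem_filter.1 hp).1).prime
          · intro p hp
            exact (mem_filter.1 (mem_filter.1 hp).1).2
        have h5 : (((∏ p ∈ F.filter (fun p => yy X < p), p : ℕ)) : ℝ) ≤ m := by
          exact_mod_cast Nat.le_of_dvd hm1 h4
        have h6 : (L / 1000) ^ (F.filter (fun p => yy X < p)).card ≤
            ((∏ p ∈ F.filter (fun p => yy X < p), p : ℕ) : ℝ) := by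
          push_cast
          rw [← Finset.prod_const]
          exact Finset.prod_le_prod (fun _ _ => by positivity) hpL
        have h7 := Real.log_le_log (by positivity) (h6.trans h5)
        rw [Real.log_pow] at h7
        linarith
      rw [nsmul_eq_mul] at e4
      refine e4.trans ?_
      have e6 : ((F.filter (fun p => yy X < p)).card : ℝ) ≤ (D * L) / (8000 * ((D : ℝ) + 1)) := by
        rw [le_div_iff₀ (by positivity)]
        refine le_trans ?_ e5
        exact mul_le_mul_of_nonneg_left hl (Nat.cast_nonneg _)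
      calc ((F.filter (fun p => yy X < p)).card : ℝ) * (1000 / L) ≤
          ((D * L) / (8000 * ((D : ℝ) + 1))) * (1000 / L) := by
            apply mul_le_mul_of_nonneg_right e6 (by positivity)
        _ = 1 / 8 * (D / ((D : ℝ) + 1)) := by field_simp; ring
        _ ≤ 1 / 8 * 1 := by
            apply mul_le_mul_of_nonneg_left _ (by norm_num)
            rw [div_le_one (by linarith)]
            linarith
        _ = 1 / 8 := mul_one _
    linarith
  have e6 : Real.exp (-(2 * ∑ p ∈ F, (1 : ℝ) / p)) ≤ ∏ p ∈ F, (1 - 1 / (p : ℝ)) := by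
    rw [mul_sum, ← sum_neg_distrib, Real.exp_sum]
    apply Finset.prod_le_prod (fun p _ => (Real.exp_pos _).le)
    intro p hp
    have h4 : (2 : ℝ) ≤ p := by exact_mod_cast (hFp p hp).two_le
    exact exp_le_one_sub (by positivity) (one_div_le_one_div_of_le (by norm_num) h4)
  have e7 : Real.exp (-1) ≤ ∏ p ∈ F, (1 - 1 / (p : ℝ)) := by
    refine le_trans (Real.exp_le_exp.2 ?_) e6
    linarith
  have e8 : (1 : ℝ) / 3 ≤ Real.exp (-1) := by
    rw [Real.exp_neg, ← one_div]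
    apply one_div_le_one_div_of_le (Real.exp_pos _)
    linarith [Real.exp_one_lt_d9]
  linarith

end Pool.Agent.J4H73.KT
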