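import Pool.Agent.J4H73.CP.SwS
import Pool.Agent.J4H73.KT.DensK

/-! The weighted sum of the discrepancies of the switched sequence. -/

set_option autoImplicit false
set_option maxHeartbeats 4000000

open Finset Filter

namespace Pool.Agent.J4H73.KT

open Pool.Agent.H378R2 Pool.Agent.H378R2.LSBV Pool.Agent.N610.AP Pool.Agent.Y882
open Pool.Agent.J4H73.BV Pool.Agent.J4H73.CH Pool.Agent.J4H73.CG Pool.Agent.J4H73.CP
open Pool.Agent

theorem cs_weight (s : Finset ℕ) (w E : ℕ → ℝ) (hE : ∀ q ∈ s, 0 ≤ E q) :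
    (∑ q ∈ s, w q * E q) ^ 2 ≤ (∑ q ∈ s, w q ^ 2 * E q) * ∑ q ∈ s, E q := by
  have h := Finset.sum_mul_sq_le_sq_mul_sq s (fun q => w q * Real.sqrt (E q)) (fun q => Real.sqrt (E q))
  have e1 : ∑ q ∈ s, w q * Real.sqrt (E q) * Real.sqrt (E q) = ∑ q ∈ s, w q * E q := by
    apply sum_congr rfl
    intro q hq
    rw [mul_assoc, Real.mul_self_sqrt (hE q hq)]
  have e2 : ∑ q ∈ s, (w q * Real.sqrt (E q)) ^ 2 = ∑ q ∈ s, w q ^ 2 * E q := by
    apply sum_congr rfl
    intro q hq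
    rw [mul_pow, Real.sq_sqrt (hE q hq)]
  have e3 : ∑ q ∈ s, Real.sqrt (E q) ^ 2 = ∑ q ∈ s, E q := by
    apply sum_congr rfl
    intro q hq
    rw [Real.sq_sqrt (hE q hq)]
  rw [e1, e2, e3] at h
  exact h

open Classical in
theorem discK (ζ υ d : ℝ) (hP : PAR ζ υ) (hd0 : 0 ≤ d) (hd : d ≤ 1 / 2) (A B N : ℕ)
    (hN : 2 ^ (2 * A + 1) + 2 * B + 2 ≤ N) : ∀ᶠ X : ℝ in atTop,
    ∀ (ps : ℕ) (S : Finset ℕ),
    ∑ p ∈ pairs X ps ⌊X ^ (497 / 1000 : ℝ)⌋₊ S, LSBV.wt A p.2 * TQ ζ υ d X (p.1 * p.2) ≤ X / (Real.log X) ^ N →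
    ∀ K : ℕ, K ≤ 2 ^ A → ∀ b : ℕ → ℕ, (∀ q, 1 ≤ q → (b q).Coprime (H378R2.WW X S ps * q)) →
    ∑ q ∈ QQ (H378R2.WW X S ps) ps ⌊X ^ (497 / 1000 : ℝ)⌋₊, (K : ℝ) ^ q.primeFactors.card *
      |∑ u ∈ (Icc 1 ⌊3 * X⌋₊).filter (fun u => u ≡ b q [MOD H378R2.WW X S ps * q]), aS ζ υ d X u -
        MS ζ υ d X / (Nat.totient (H378R2.WW X S ps * q) : ℝ)| ≤
      X / ((Nat.totient (H378R2.WW X S ps) : ℝ) * (Real.log X) ^ B) := by
  obtain ⟨e, he⟩ : ∃ e : ℕ, e = 2 ^ (2 * A + 1) := ⟨_, rfl⟩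
  obtain ⟨cc, hcc⟩ : ∃ cc : ℝ, cc = 2 ^ e := ⟨_, rfl⟩
  have hcc0 : 0 < cc := by rw [hcc]; positivity
  filter_upwards [ev_YF, ev_z ζ hP.z, discS ζ υ d hP hd0 hd A N, Pool.Agent.H398R2.BV.ev_log 1 N (1 / 10) (by norm_num),
    Real.tendsto_log_atTop.eventually_ge_atTop (28 * cc)] with X hY hz HD hLN hLc
  intro ps S hpairs K hK b hb
  obtain ⟨z1, z2, z3, z4⟩ := hz
  have hX0 : 0 < X := by linarith [hY.X4]
  have hX1 : 1 ≤ X := by linarith [hY.X4]
  have hL1 : 1 ≤ Real.log X := by linarith [hY.L100]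
  set L := Real.log X with hL
  have hL0 : 0 < L := by linarith
  set W := H378R2.WW X S ps with hW
  have hW0 : 0 < W := H378R2.WW_pos X S ps
  set R := ⌊X ^ (497 / 1000 : ℝ)⌋₊ with hR
  have hRX : (R : ℝ) ≤ X ^ (497 / 1000 : ℝ) := Nat.floor_le (by positivity)
  set N3 := ⌊3 * X⌋₊ with hN3
  have hN3X : (N3 : ℝ) ≤ 3 * X := Nat.floor_le (by positivity)
  have hφW : (0 : ℝ) < Nat.totient W := by exact_mod_cast Nat.totient_pos.mpr hW0
  have hWX : (W : ℝ) ≤ X ^ (7 / 5000 : ℝ) :=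
      le_trans (by exact_mod_cast Nat.le_of_dvd (primorial_pos _) (WW_dvd_primorial X S ps))
        (BV.primorial_yy_le' X hX1)
  have hφWW : (Nat.totient W : ℝ) ≤ W := by exact_mod_cast Nat.totient_le W
  have hfacts : ∀ u ∈ Icc 1 N3, 0 ≤ aS ζ υ d X u ∧ aS ζ υ d X u ≤ 2 * L := by
    intro u hu
    rw [mem_Icc] at hu
    have h1 := aS_facts ζ υ d X hP hY hd0 hd u ((Nat.le_floor_iff (by linarith)).1 hu.2)
    exact ⟨h1.1, h1.2.1⟩
  set E : ℕ → ℝ := fun q => |∑ u ∈ (Icc 1 N3).filter (fun u => u ≡ b q [MOD W * q]), aS ζ υ d X u -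
        MS ζ υ d X / (Nat.totient (W * q) : ℝ)| with hE
  have hE0 : ∀ q, 0 ≤ E q := fun q => abs_nonneg _
  have h1 : ∑ q ∈ QQ W ps R, E q ≤ (X / L ^ N + X ^ (9 / 10 : ℝ)) / (Nat.totient W : ℝ) := by
    have h := HD ps S hpairs ∅ (by simp) (by simp; positivity) b hb
    simpa using h
  -- the trivial bound
  have h2 : ∀ q ∈ QQ W ps R, E q ≤ 14 * L * X / (Nat.totient W : ℝ) * (1 / (Nat.totient q : ℝ)) := by
    intro q hq
    rw [mem_QQ] at hq
    obtain ⟨⟨hq1, hq2⟩, hqs, hqc⟩ := hq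
    have hc : W.Coprime q := (Nat.Coprime.coprime_mul_right_right hqc).symm
    have hm0 : 0 < W * q := Nat.mul_pos hW0 hq1
    have hq0 : (0 : ℝ) < q := by exact_mod_cast hq1
    have hφq : (0 : ℝ) < Nat.totient q := by exact_mod_cast Nat.totient_pos.mpr hq1
    have hφqq : (Nat.totient q : ℝ) ≤ q := by exact_mod_cast Nat.totient_le q
    have hmr : (0 : ℝ) < ((W * q : ℕ) : ℝ) := by exact_mod_cast hm0
    have s1 : ∑ u ∈ (Icc 1 N3).filter (fun u => u ≡ b q [MOD W * q]), aS ζ υ d X u ≤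
        2 * L * (4 * X / ((W * q : ℕ) : ℝ)) := by
      have c1 : (((Icc 1 N3).filter (fun u => u ≡ b q [MOD W * q])).card : ℝ) ≤ N3 / ((W * q : ℕ) : ℝ) + 1 := by
        have h1 := Pool.Agent.Helper112.TII.count_class 0 N3 (W * q) (b q) hm0 (Nat.zero_le _)
        have e1 : (Icc 1 N3).filter (fun u => u ≡ b q [MOD W * q]) =
            (Ioc 0 N3).filter (fun u => u ≡ b q [MOD W * q]) := by
          ext u
          simp only [mem_filter, mem_Icc, mem_Ioc]
          constructor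
          · rintro ⟨⟨h3, h4⟩, h5⟩
            exact ⟨⟨h3, h4⟩, h5⟩
          · rintro ⟨⟨h3, h4⟩, h5⟩
            exact ⟨⟨h3, h4⟩, h5⟩
        rw [e1]
        simpa using h1
      have c2 : ∑ u ∈ (Icc 1 N3).filter (fun u => u ≡ b q [MOD W * q]), aS ζ υ d X u ≤
          (((Icc 1 N3).filter (fun u => u ≡ b q [MOD W * q])).card : ℝ) * (2 * L) := by
        rw [← nsmul_eq_mul]
        apply sum_le_card_nsmul
        intro u hu
        exact (hfacts u (mem_filter.1 hu).1).2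
      refine c2.trans ?_
      rw [mul_comm]
      apply mul_le_mul_of_nonneg_left _ (by positivity)
      refine c1.trans ?_
      rw [div_add_one hmr.ne']
      apply div_le_div_of_nonneg_right _ hmr.le
      have hWq : ((W * q : ℕ) : ℝ) ≤ X := by
        push_cast
        have hqR : (q : ℝ) ≤ X ^ (497 / 1000 : ℝ) := le_trans (by exact_mod_cast hq2) hRX
        calc (W : ℝ) * q ≤ X ^ (7 / 5000 : ℝ) * X ^ (497 / 1000 : ℝ) := by gcongr
          _ = X ^ (7 / 5000 + 497 / 1000 : ℝ) := by rw [← Real.rpow_add hX0]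
          _ ≤ X ^ (1 : ℝ) := Real.rpow_le_rpow_of_exponent_le hX1 (by norm_num)
          _ = X := Real.rpow_one X
      linarith
    have s0 : 0 ≤ ∑ u ∈ (Icc 1 N3).filter (fun u => u ≡ b q [MOD W * q]), aS ζ υ d X u :=
      sum_nonneg fun u hu => (hfacts u (mem_filter.1 hu).1).1
    have s2 : MS ζ υ d X ≤ 6 * L * X := by
      unfold MS
      have c2 : ∑ u ∈ Icc 1 N3, aS ζ υ d X u ≤ ((Icc 1 N3).card : ℝ) * (2 * L) := by
        rw [← nsmul_eq_mul]
        apply sum_le_card_nsmul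
        intro u hu
        exact (hfacts u hu).2
      refine c2.trans ?_
      rw [Nat.card_Icc, Nat.add_sub_cancel]
      calc (N3 : ℝ) * (2 * L) ≤ (3 * X) * (2 * L) := mul_le_mul_of_nonneg_right hN3X (by positivity)
        _ = _ := by ring
    have s3 : 0 ≤ MS ζ υ d X := by
      unfold MS
      exact sum_nonneg fun u hu => (hfacts u hu).1
    have hφm : (Nat.totient (W * q) : ℝ) = (Nat.totient W : ℝ) * (Nat.totient q : ℝ) := by
      rw [Nat.totient_mul hc]
      push_cast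
      ring
    have s4 : 2 * L * (4 * X / ((W * q : ℕ) : ℝ)) ≤ 8 * L * X / (Nat.totient W : ℝ) * (1 / (Nat.totient q : ℝ)) := by
      push_cast
      calc 2 * L * (4 * X / ((W : ℝ) * q)) ≤ 2 * L * (4 * X / ((Nat.totient W : ℝ) * (Nat.totient q : ℝ))) := by gcongr
        _ = _ := by field_simp; ring
    have s5 : MS ζ υ d X / (Nat.totient (W * q) : ℝ) ≤
        6 * L * X / (Nat.totient W : ℝ) * (1 / (Nat.totient q : ℝ)) := by
      rw [hφm]
      calc MS ζ υ d X / ((Nat.totient W : ℝ) * (Nat.totient q : ℝ)) ≤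
          6 * L * X / ((Nat.totient W : ℝ) * (Nat.totient q : ℝ)) := by gcongr
        _ = _ := by field_simp
    have s6 : 0 ≤ MS ζ υ d X / (Nat.totient (W * q) : ℝ) := by positivity
    have s7 : 14 * L * X / (Nat.totient W : ℝ) * (1 / (Nat.totient q : ℝ)) =
        8 * L * X / (Nat.totient W : ℝ) * (1 / (Nat.totient q : ℝ)) +
        6 * L * X / (Nat.totient W : ℝ) * (1 / (Nat.totient q : ℝ)) := by ring
    rw [s7]
    simp only [hE]
    rw [abs_le]
    constructor <;> linarith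
  -- Cauchy
  have h3 := cs_weight (QQ W ps R) (fun q => (K : ℝ) ^ q.primeFactors.card) E (fun q _ => hE0 q)
  have h4 : ∑ q ∈ QQ W ps R, ((K : ℝ) ^ q.primeFactors.card) ^ 2 * E q ≤
      14 * L * X / (Nat.totient W : ℝ) * (cc * L ^ e) := by
    calc _ ≤ ∑ q ∈ QQ W ps R, 14 * L * X / (Nat.totient W : ℝ) * LSBV.wt (2 * A) q := by
          apply sum_le_sum
          intro q hq
          have h5 := h2 q hq
          rw [mem_QQ] at hq
          have h6 := pow_omega K A q hK hq.2.1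
          calc ((K : ℝ) ^ q.primeFactors.card) ^ 2 * E q ≤ ((q.divisors.card : ℝ) ^ A) ^ 2 *
                (14 * L * X / (Nat.totient W : ℝ) * (1 / (Nat.totient q : ℝ))) := by
                apply mul_le_mul _ h5 (hE0 q) (by positivity)
                exact pow_le_pow_left₀ (by positivity) h6 2
            _ = _ := by
                unfold LSBV.wt
                rw [← pow_mul, mul_comm A 2]
                ring
      _ = 14 * L * X / (Nat.totient W : ℝ) * ∑ q ∈ QQ W ps R, LSBV.wt (2 * A) q := by rw [mul_sum]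
      _ ≤ 14 * L * X / (Nat.totient W : ℝ) * (cc * L ^ e) := by
          apply mul_le_mul_of_nonneg_left _ (by positivity)
          rw [hcc, he]
          refine le_trans ?_ (BV.sum_wtR (2 * A) X (by linarith [hY.X4]))
          apply sum_le_sum_of_subset_of_nonneg
          · intro q hq
            rw [mem_QQ] at hq
            rw [mem_Icc]
            exact hq.1
          · intro q _ _
            exact wt_nonneg _ _
  have hS0 : 0 ≤ ∑ q ∈ QQ W ps R, (K : ℝ) ^ q.primeFactors.card * E q :=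
    sum_nonneg fun q _ => mul_nonneg (by positivity) (hE0 q)
  rw [one_mul] at hLN
  have h5 : X ^ (9 / 10 : ℝ) ≤ X / L ^ N := by
    rw [le_div_iff₀ (by positivity)]
    calc X ^ (9 / 10 : ℝ) * L ^ N ≤ X ^ (9 / 10 : ℝ) * X ^ (1 / 10 : ℝ) := by gcongr
      _ = X := by rw [← Real.rpow_add hX0]; norm_num
  have h6 : (∑ q ∈ QQ W ps R, (K : ℝ) ^ q.primeFactors.card * E q) ^ 2 ≤
      (X / ((Nat.totient W : ℝ) * L ^ B)) ^ 2 := by
    refine h3.trans ?_
    calc _ ≤ (14 * L * X / (Nat.totient W : ℝ) * (cc * L ^ e)) *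
          ((X / L ^ N + X ^ (9 / 10 : ℝ)) / (Nat.totient W : ℝ)) := by
          apply mul_le_mul h4 h1 (sum_nonneg fun q _ => hE0 q) (by positivity)
      _ ≤ (14 * L * X / (Nat.totient W : ℝ) * (cc * L ^ e)) *
          ((X / L ^ N + X / L ^ N) / (Nat.totient W : ℝ)) := by gcongr
      _ = (X / (Nat.totient W : ℝ)) ^ 2 * ((28 * cc) * L ^ (e + 1) / L ^ N) := by
          field_simp
          ring
      _ ≤ (X / (Nat.totient W : ℝ)) ^ 2 * (1 / L ^ (2 * B)) := by
          apply mul_le_mul_of_nonneg_left _ (by positivity)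
          rw [div_le_div_iff₀ (by positivity) (by positivity), one_mul]
          calc 28 * cc * L ^ (e + 1) * L ^ (2 * B) ≤ L * L ^ (e + 1) * L ^ (2 * B) := by gcongr
            _ = L ^ (e + 2 * B + 2) := by ring
            _ ≤ L ^ N := pow_le_pow_right₀ hL1 (by omega)
      _ = _ := by
          rw [div_pow, div_pow, mul_pow, ← pow_mul, mul_comm 2 B]
          field_simp
  exact (pow_le_pow_iff_left₀ hS0 (by positivity) two_ne_zero).1 h6

end Pool.Agent.J4H73.KT
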