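import Pool.Agent.J4H73.KT.AsmK
import Pool.Agent.J4H73.KT.SwK
import Pool.Agent.J4H73.CP.P2Z

/-! Primes `p` such that `p + x i0` has at most two prime factors and all `p + x j` are rough. -/

set_option autoImplicit false
set_option maxHeartbeats 4000000

open Finset Filter Topology

namespace Pool.Agent.J4H73.KT

open Pool.Agent.H378R2 Pool.Agent.H378R2.LSBV Pool.Agent.N610.AP Pool.Agent.Y882
open Pool.Agent.J4H73.BV Pool.Agent.J4H73.CH Pool.Agent.J4H73.CG Pool.Agent.J4H73.CP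
open Pool.Agent.W23.DC (Mer pr SF)
open Pool.Agent

open Classical in
theorem p2K (k : ℕ) (hk : 1 ≤ k) : ∀ δ₁ : ℝ, 0 < δ₁ → ∃ c : ℝ, 0 < c ∧ ∃ ε₁ : ℝ, 0 < ε₁ ∧ ε₁ ≤ δ₁ / 2 ∧ ∀ᶠ X : ℝ in atTop,
      ∀ x : Fin k → ℤ,
      (∀ p : ℕ, p.Prime → ∃ a : ℤ, ¬ (p : ℤ) ∣ a ∧ ∀ j, ¬ (p : ℤ) ∣ a + x j) → (∀ j, |(x j : ℝ)| ≤ 9 * X) →
      ∀ i0 : Fin k, HPs (1 / 1000) (101 / 100000) X (x i0) →
      X ^ (99 / 100 : ℝ) ≤ (((Icc 1 ⌊3 * X⌋₊).filter (fun n : ℕ => X < n ∧ n.Prime ∧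
        CH.AP 2 (12 / 100) X ((n : ℤ) + x i0).natAbs ∧
        (∀ j, ∀ q : ℕ, q.Prime → (q : ℤ) ∣ n + x j → (⌊X⌋₊ : ℝ) ^ ε₁ ≤ q) ∧
        ∀ z : ℤ, |(z : ℝ)| ≤ c * CH.RR X → z ≠ 0 → (∀ j, z ≠ x j) →
          ∃ q : ℕ, q.Prime ∧ (q : ℝ) ≤ X ^ (2 * (ε₁ / 3)) ∧ (q : ℤ) ∣ n + z)).card : ℝ) := by
  obtain ⟨A0, F, f, hSF⟩ := Pool.Agent.W366.DC.SFX
  obtain ⟨C0, hT1⟩ := TT_h1
  obtain ⟨C1, hT1'⟩ := TGL_h1 (1 / 1000) (by norm_num) (by norm_num)
  have hPAR : PAR (1243 / 10000) (1667 / 5000) := ⟨by norm_num, by norm_num, by norm_num, by norm_num⟩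
  have hT1'' := TQ_h1 (1243 / 10000) (1667 / 5000) (101 / 100000) hPAR (by norm_num) (by norm_num)
  obtain ⟨A, hAdef⟩ : ∃ A : ℕ, A = 4 * k + 20 := ⟨_, rfl⟩
  obtain ⟨N, hNdef⟩ : ∃ N : ℕ, N = 2 ^ (2 * A + 1) + 2 * (4 * k + 10) + 6 + (2 ^ (A + 1) + A + 1) := ⟨_, rfl⟩
  have hkA : k ≤ 2 ^ A := by
    have h1 : k < 2 ^ k := Nat.lt_two_pow_self
    have h2 : 2 ^ k ≤ 2 ^ A := Nat.pow_le_pow_right (by norm_num) (by omega)
    omega
  have hN1 : 2 ^ (A + 1) + A + 1 ≤ N := by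
    rw [hNdef]
    exact Nat.le_add_left _ _
  have hN2 : 2 ^ (2 * A + 1) + 2 * (4 * k + 10) + 6 ≤ N := by
    rw [hNdef]
    exact Nat.le_add_right _ _
  refine assembleK k hk A0 F f hSF (1 / 1000) (by norm_num) (by norm_num) (4969 / 10000) (1243 / 10000) (1667 / 5000)
    (1 / 2) 0 (497 / 1000)
    (by norm_num) (by norm_num) (by norm_num) (by norm_num) (by norm_num) (by norm_num) (by norm_num)
    (by norm_num) le_rfl (by norm_num) hJ2 (by norm_num) le_rfl A N (by omega) hN1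
    (fun X f => TT X f + TG (1 / 1000) X (fun n => ArithmeticFunction.vonMangoldt n) f +
      TQ (1243 / 10000) (1667 / 5000) (101 / 100000) X f)
    (fun X f => add_nonneg (add_nonneg (TT_nonneg X f) (TG_nonneg _ _ _ _)) (TQ_nonneg _ _ _ _ _))
    (fun X f => by
      have h1 := TG_nonneg (1 / 1000) X (fun n => ArithmeticFunction.vonMangoldt n) f
      have h2 := TQ_nonneg (1243 / 10000) (1667 / 5000) (101 / 100000) X f
      linarith)
    (fun X f => by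
      have h1 := TT_nonneg X f
      have h2 := TQ_nonneg (1243 / 10000) (1667 / 5000) (101 / 100000) X f
      linarith) 8 (C0 + C1 + 5000) ?_ ?_ ?_
    (HPs (1 / 1000) (101 / 100000))
    (Filter.Eventually.of_forall fun X h hh => hh.1) (CH.AP 2 (12 / 100)) (Sw (1243 / 10000) (1667 / 5000)) (1 / 2)
    (kap (101 / 100000) / kap (1 / 1000) * cst * (A0 / (4969 / 10000))) (by norm_num) hpt2 ?_
    (fin_ineq A0 hSF.pos)
  · filter_upwards [hT1, hT1', hT1''] with X h1 h2 h3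
    rw [sum_add_distrib, sum_add_distrib]
    calc _ ≤ _ := add_le_add (add_le_add h1 h2) h3
      _ = _ := by ring
  · intro Z'
    filter_upwards [sc_log Z', TT_h2', TGL_h2 (1 / 1000) (by norm_num) (by norm_num),
      TQ_h2 (1243 / 10000) (1667 / 5000) (101 / 100000) hPAR (by norm_num) (by norm_num), ev_exp6 92,
      eventually_gt_atTop 0]
      with X h1 h2 h3 h3' h4 h5
    obtain ⟨fs, g1, g2⟩ := h1
    refine ⟨fs, g1, fun f _ k2 k3 k4 => ?_⟩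
    have hs : SCf X f := fun ψ hψ => g2 f k2 k3 k4 ψ hψ
    have a1 := h2 f k2 k3 hs
    have a2 := h3 f k2 k3 hs
    have a3 := h3' f k2 k3 hs
    set lam := Real.log (Real.log X)
    have a4 : 92 * (X * Real.exp (lam ^ 6 - lam ^ 7)) ≤ X * Real.exp (2 * lam ^ 6 - lam ^ 7) := by
      calc 92 * (X * Real.exp (lam ^ 6 - lam ^ 7)) ≤ Real.exp (lam ^ 6) * (X * Real.exp (lam ^ 6 - lam ^ 7)) :=
            mul_le_mul_of_nonneg_right h4 (by positivity)
        _ = X * (Real.exp (lam ^ 6) * Real.exp (lam ^ 6 - lam ^ 7)) := by ring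
        _ = _ := by
            rw [← Real.exp_add]
            congr 2
            ring
    have a5 : 0 ≤ X * Real.exp (lam ^ 6 - lam ^ 7) := by positivity
    have a6 : 1 / 3 * X * Real.exp (2 * lam ^ 6 - lam ^ 7) = 1 / 3 * (X * Real.exp (2 * lam ^ 6 - lam ^ 7)) := by ring
    rw [a6] at a3
    linarith
  · filter_upwards [TT_large, TGL_h3 (1 / 1000) (by norm_num) (by norm_num),
      TQ_h3 (1243 / 10000) (1667 / 5000) (101 / 100000) hPAR (by norm_num) (by norm_num), eventually_ge_atTop 1,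
      (tendsto_rpow_atTop (show (0 : ℝ) < 1 / 20000 by norm_num)).eventually_ge_atTop 3] with X g1 g2 g2' g3 g4
    intro F0 F1 h1 h2 h3
    have a1 := g1 F0 F1 h1 h2 h3
    have a2 := g2 F0 F1 h1 h2 h3
    have a3 := g2' F0 F1 h1 h2 h3
    have e : ∑ f ∈ Icc F0 F1, (1 / (f : ℝ)) *
        (TT X f + TG (1 / 1000) X (fun n => ArithmeticFunction.vonMangoldt n) f +
          TQ (1243 / 10000) (1667 / 5000) (101 / 100000) X f) =
        ∑ f ∈ Icc F0 F1, (1 / (f : ℝ)) * TT X f +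
        ∑ f ∈ Icc F0 F1, (1 / (f : ℝ)) * TG (1 / 1000) X (fun n => ArithmeticFunction.vonMangoldt n) f +
        ∑ f ∈ Icc F0 F1, (1 / (f : ℝ)) * TQ (1243 / 10000) (1667 / 5000) (101 / 100000) X f := by
      rw [← sum_add_distrib, ← sum_add_distrib]
      exact sum_congr rfl fun f _ => by ring
    rw [e]
    have hX0 : 0 < X := by linarith
    calc _ ≤ 3 * X ^ (1997 / 2000 : ℝ) := by linarith
      _ ≤ X ^ (1 / 20000 : ℝ) * X ^ (1997 / 2000 : ℝ) := mul_le_mul_of_nonneg_right g4 (by positivity)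
      _ = X ^ (19971 / 20000 : ℝ) := by rw [← Real.rpow_add hX0]; norm_num
  · intro θ hθ
    obtain ⟨ε₀, hε₀, H⟩ := hswK k hk A0 F f hSF (1 / 1000) (101 / 100000) (by norm_num) (by norm_num) (by norm_num)
      (by norm_num) A (4 * k + 10) N hkA hN2 _ rfl θ hθ
    refine ⟨ε₀, hε₀, fun ε₁ h1 h2 => ?_⟩
    obtain ⟨Zs, H⟩ := H ε₁ h1 h2
    refine ⟨Zs, ?_⟩
    filter_upwards [H] with X H
    intro ps S hps hS hpairs x i0 r hh hr hrh
    refine H ps S hps hS ?_ x i0 r hh hr hrh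
    refine le_trans (sum_le_sum fun p _ => mul_le_mul_of_nonneg_left ?_ (wt_nonneg A _)) hpairs
    have h1 := TG_nonneg (1 / 1000) X (fun n => ArithmeticFunction.vonMangoldt n) (p.1 * p.2)
    have h2 := TT_nonneg X (p.1 * p.2)
    linarith

end Pool.Agent.J4H73.KT
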