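import Pool.Agent.J4H73.KT.DensK
import Pool.Agent.J4H73.CH.Asm2

/-! The pointwise inequality for tuples of shifts. -/

set_option autoImplicit false
set_option maxHeartbeats 4000000

open Finset Filter

namespace Pool.Agent.J4H73.KT

open Pool.Agent.H378R2 Pool.Agent.H378R2.LSBV Pool.Agent.N610.AP Pool.Agent.Y882
open Pool.Agent.J4H73.BV Pool.Agent.J4H73.CH Pool.Agent.J4H73.CG
open Pool.Agent.W23.DC (Mer pr SF)
open Pool.Agent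

open Classical in
/-- the pointwise inequality -/
theorem pointwiseK (k : ℕ) (X : ℝ) (hX0 : 2 ≤ X) (ζ υ aw bw σ ε₁ : ℝ) (hσ : 0 ≤ σ) (hb : 0 ≤ bw) (hab : bw * υ ≤ aw)
    (hεζ : ε₁ ≤ ζ) (hζυ : ζ ≤ υ) (hυ : υ ≤ 1) (cw : Finset ℕ → ℝ)
    (hcw : ∀ N : ℕ, VV (Y882.PZ ⌊X⌋₊ υ) cw (fun p => if p ∣ N then 1 else 0) ≤ KW.WW ⌊X⌋₊ ζ υ aw bw N)
    (Gd Sw : ℝ → ℕ → Prop) (c δ₁ : ℝ)
    (hpt : ∀ N : ℕ, 0 < N → (N : ℝ) ≤ 12 * X → KW.WW ⌊X⌋₊ ζ υ aw bw N ≤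
        (if Gd X N then 1 else 0) + σ * (if Sw X N then 1 else 0) +
          (if ∃ q ∈ pr ⌊X⌋₊ ζ υ, q ^ 2 ∣ N then 1 else 0))
    (ps : ℕ) (S : Finset ℕ) (J : ℕ) (hJε : ((2 ^ 2 ^ J : ℕ) : ℝ) < (⌊X⌋₊ : ℝ) ^ ε₁)
    (hJδ : ((2 ^ 2 ^ J : ℕ) : ℝ) ≤ X ^ δ₁) (hyδ : (yy X : ℝ) ≤ X ^ δ₁)
    (x : Fin k → ℤ) (i0 : Fin k) (r : ℕ) (hh : |(x i0 : ℝ)| ≤ 9 * X) (b' : ℤ) (U0 : Finset ℕ)
    (hcov : ∀ m : ℤ, |(m : ℝ)| ≤ c * CH.RR X → m ≠ 0 → (∀ j, m ≠ x j) → (∃ k ∈ U0, m = b' + k) ∨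
        (∃ p : ℕ, p.Prime ∧ p ≤ yy X ∧ ∀ n : ℕ, n ≡ r [MOD WW X S ps] → (p : ℤ) ∣ n + m))
    (n : ℕ) (hn : n ∈ Icc 1 ⌊3 * X⌋₊) (hXn : X < n) (hnr : n ≡ r [MOD WW X S ps]) (hnh : (n : ℤ) + x i0 ≠ 0) :
    VV (Y882.PZ ⌊X⌋₊ υ) cw (fun p => if p ≠ ps ∧ n % p ∈ RC x (x i0) (Y882.PZ ⌊X⌋₊ ε₁) p then 1 else 0) ≤
      (if n.Prime ∧ Gd X ((n : ℤ) + x i0).natAbs ∧
        (∀ j, ∀ q : ℕ, q.Prime → (q : ℤ) ∣ n + x j → (⌊X⌋₊ : ℝ) ^ ε₁ ≤ q) ∧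
        (∀ z : ℤ, |(z : ℝ)| ≤ c * CH.RR X → z ≠ 0 → (∀ j, z ≠ x j) →
          ∃ q : ℕ, q.Prime ∧ (q : ℝ) ≤ X ^ δ₁ ∧ (q : ℤ) ∣ n + z)
        then 1 else 0) + (if ¬ n.Prime then 1 else 0) +
      (∑ j, if ps.Prime ∧ (ps : ℤ) ∣ n + x j ∧ n.Prime ∧ ∀ p ∈ N610.AP.PZ X S ps J, ∀ i, ¬ (p : ℤ) ∣ n + x i
        then 1 else 0) +
      (∑ k ∈ U0, if ∀ p ∈ N610.AP.PZ X S ps J, (∀ i, ¬ (p : ℤ) ∣ n + x i) ∧ ¬ (p : ℤ) ∣ n + (b' + k) then 1 else 0) +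
      (if ∃ q ∈ pr ⌊X⌋₊ ζ υ, ((q ^ 2 : ℕ) : ℤ) ∣ n + x i0 then 1 else 0) +
      σ * (if n.Prime ∧ Sw X ((n : ℤ) + x i0).natAbs ∧
        (∀ p ∈ Y882.PZ ⌊X⌋₊ ε₁, p ≠ ps → ∀ j, ¬ (p : ℤ) ∣ n + x j) then 1 else 0) := by
  rw [mem_Icc] at hn
  have hfl : 2 ≤ ⌊X⌋₊ := Nat.le_floor (by push_cast; exact hX0)
  have hflr : (2 : ℝ) ≤ ⌊X⌋₊ := by exact_mod_cast hfl
  set Y := ⌊X⌋₊ with hY
  have hYX : (Y : ℝ) ≤ X := Nat.floor_le (by linarith)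
  set h : ℤ := x i0 with hhdef
  set P1 := Y882.PZ Y ε₁ with hP1
  set P := Y882.PZ Y υ with hP
  have hPp : ∀ p ∈ P, p.Prime := fun p hp => (mem_PZY hp).1
  have hNh : ((n : ℤ) + h).natAbs ≠ 0 := Int.natAbs_ne_zero.2 hnh
  have hNX : ((((n : ℤ) + h).natAbs : ℕ) : ℝ) ≤ 12 * X := by
    have h1 : (n : ℝ) ≤ 3 * X := (Nat.le_floor_iff (by linarith)).1 hn.2
    rw [Nat.cast_natAbs, Int.cast_abs]
    push_cast
    have h2 := abs_add_le (n : ℝ) (h : ℝ)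
    rw [abs_of_nonneg (Nat.cast_nonneg n : (0 : ℝ) ≤ (n : ℝ))] at h2
    linarith
  -- nonnegativity
  have n1 : (0 : ℝ) ≤ (if n.Prime ∧ Gd X ((n : ℤ) + h).natAbs ∧
        (∀ j, ∀ q : ℕ, q.Prime → (q : ℤ) ∣ n + x j → (Y : ℝ) ^ ε₁ ≤ q) ∧
        (∀ z : ℤ, |(z : ℝ)| ≤ c * CH.RR X → z ≠ 0 → (∀ j, z ≠ x j) →
          ∃ q : ℕ, q.Prime ∧ (q : ℝ) ≤ X ^ δ₁ ∧ (q : ℤ) ∣ n + z)
        then 1 else 0) := by split_ifs <;> norm_num
  have n2 : (0 : ℝ) ≤ (if ¬ n.Prime then 1 else 0) := by split_ifs <;> norm_num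
  have n3 : (0 : ℝ) ≤ (∑ j, if ps.Prime ∧ (ps : ℤ) ∣ n + x j ∧ n.Prime ∧
      ∀ p ∈ N610.AP.PZ X S ps J, ∀ i, ¬ (p : ℤ) ∣ n + x i then 1 else 0) :=
    sum_nonneg fun j _ => by split_ifs <;> norm_num
  have n4 : (0 : ℝ) ≤ (∑ k ∈ U0, if ∀ p ∈ N610.AP.PZ X S ps J, (∀ i, ¬ (p : ℤ) ∣ n + x i) ∧
      ¬ (p : ℤ) ∣ n + (b' + k) then 1 else 0) :=
    sum_nonneg fun k _ => by split_ifs <;> norm_num
  have n5 : (0 : ℝ) ≤ (if ∃ q ∈ pr Y ζ υ, ((q ^ 2 : ℕ) : ℤ) ∣ n + h then 1 else 0) := by split_ifs <;> norm_num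
  have n6 : (0 : ℝ) ≤ σ * (if n.Prime ∧ Sw X ((n : ℤ) + h).natAbs ∧
        (∀ p ∈ P1, p ≠ ps → ∀ j, ¬ (p : ℤ) ∣ n + x j) then 1 else 0) := by
    apply mul_nonneg hσ
    split_ifs <;> norm_num
  set φ : ℕ → Prop := fun p => p ≠ ps ∧ n % p ∈ RC x h P1 p with hφ
  -- an integer with the given divisors
  set Ns : ℕ := ∏ p ∈ P.filter φ, p with hNs
  have hNs1 : ∀ p ∈ P, (p ∣ Ns ↔ φ p) := by
    intro p hp
    constructor
    · intro h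
      obtain ⟨q, hq, hpq⟩ := (Prime.dvd_finsetProd_iff (hPp p hp).prime _).1 h
      rw [mem_filter] at hq
      rw [(Nat.prime_dvd_prime_iff_eq (hPp p hp) (hPp q hq.1)).1 hpq]
      exact hq.2
    · intro h
      exact dvd_prod_of_mem _ (mem_filter.2 ⟨hp, h⟩)
  have hVN : ∀ N : ℕ, (∀ p ∈ P, (p ∣ N ↔ φ p)) → VV P cw (fun p => if φ p then (1 : ℝ) else 0) ≤
      KW.WW Y ζ υ aw bw N := by
    intro N hN
    refine le_trans (le_of_eq ?_) (hcw N)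
    apply CH.VV_congr
    intro p hp
    by_cases h1 : φ p
    · rw [if_pos h1, if_pos ((hN p hp).2 h1)]
    · rw [if_neg h1, if_neg (fun h2 => h1 ((hN p hp).1 h2))]
  have hV1 := hVN Ns hNs1
  change VV P cw (fun p => if φ p then (1 : ℝ) else 0) ≤ _
  have hle1 := fun N => KW.WW_le_one Y ζ υ aw bw hb hab N
  by_cases hpr : n.Prime
  · -- divisibility facts
    have hnp : ∀ p : ℕ, p.Prime → p ≤ Y → ¬ p ∣ n := by
      intro p hp hpY hd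
      have h1 := (Nat.prime_dvd_prime_iff_eq hp hpr).1 hd
      have h2 : (p : ℝ) ≤ Y := by exact_mod_cast hpY
      rw [h1] at h2
      linarith
    by_cases hgood : ∀ p ∈ P1, p ≠ ps → ∀ j, ¬ (p : ℤ) ∣ n + x j
    · have hNp1 : ∀ p ∈ P, (p ∣ Np ps ((n : ℤ) + h).natAbs ↔ φ p) := by
        intro p hp
        have hpp := hPp p hp
        rw [Np_dvd ps _ p hNh hpp, dvd_natAbs_iff]
        simp only [hφ]
        by_cases hp1 : p ∈ P1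
        · rw [RC_pos _ _ _ _ hp1, mod_mem_Rx _ _ _ hpp.pos]
          constructor
          · rintro (⟨h1, h2⟩ | ⟨h1, h2⟩)
            · exact absurd h2 (hgood p hp1 h1 i0)
            · exact absurd h2 (hgood p hp1 (fun h3 => h1 (h3 ▸ hpp)) i0)
          · rintro ⟨h1, _, j, h2⟩
            exact absurd h2 (hgood p hp1 h1 j)
        · rw [RC_neg _ _ _ _ hp1, mod_mem_Rx _ _ _ hpp.pos]
          constructor
          · rintro (⟨h1, h2⟩ | ⟨h1, h2⟩)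
            · exact ⟨h1, hnp p hpp (mem_PZY hp).2, 0, h2⟩
            · exact ⟨fun h3 => h1 (h3 ▸ hpp), hnp p hpp (mem_PZY hp).2, 0, h2⟩
          · rintro ⟨h1, _, _, h2⟩
            exact Or.inl ⟨h1, h2⟩
      have hV2 := hVN _ hNp1
      have hJP : ∀ p ∈ N610.AP.PZ X S ps J, ∀ i, ¬ (p : ℤ) ∣ n + x i := by
        intro p hp i
        obtain ⟨hpp, hp1, hp2, hp3⟩ := mem_PZ.1 hp
        have hpY : (p : ℝ) < (Y : ℝ) ^ ε₁ := lt_of_le_of_lt (by exact_mod_cast hp1) hJε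
        exact hgood p ((mem_PZY_iff hfl (by linarith)).2 ⟨hpp, hpY⟩) hp3 i
      by_cases hpsd : ∃ j, ps.Prime ∧ (ps : ℤ) ∣ n + x j
      · obtain ⟨j, hj1, hj2⟩ := hpsd
        have h7 : (1 : ℝ) ≤ ∑ j, if ps.Prime ∧ (ps : ℤ) ∣ n + x j ∧ n.Prime ∧
            ∀ p ∈ N610.AP.PZ X S ps J, ∀ i, ¬ (p : ℤ) ∣ n + x i then 1 else 0 := by
          have h8 := single_le_sum (f := fun j : Fin k => (if ps.Prime ∧ (ps : ℤ) ∣ n + x j ∧ n.Prime ∧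
            ∀ p ∈ N610.AP.PZ X S ps J, ∀ i, ¬ (p : ℤ) ∣ n + x i then (1 : ℝ) else 0))
            (fun j _ => by split_ifs <;> norm_num) (mem_univ j)
          rw [if_pos ⟨hj1, hj2, hpr, hJP⟩] at h8
          exact h8
        have := hle1 (Np ps ((n : ℤ) + h).natAbs)
        linarith
      · push Not at hpsd
        have hN' : Np ps ((n : ℤ) + h).natAbs = ((n : ℤ) + h).natAbs :=
          Np_eq ps _ (fun h1 h2 => hpsd i0 h1 ((dvd_natAbs_iff ps _).1 h2))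
        rw [hN'] at hV2
        have hle2 := hle1 ((n : ℤ) + h).natAbs
        by_cases hsv : ∃ k ∈ U0, ∀ p ∈ N610.AP.PZ X S ps J, (∀ i, ¬ (p : ℤ) ∣ n + x i) ∧ ¬ (p : ℤ) ∣ n + (b' + k)
        · obtain ⟨k, hk, hk2⟩ := hsv
          have h7 : (1 : ℝ) ≤ ∑ k ∈ U0, if ∀ p ∈ N610.AP.PZ X S ps J, (∀ i, ¬ (p : ℤ) ∣ n + x i) ∧
              ¬ (p : ℤ) ∣ n + (b' + k) then 1 else 0 := by
            have h8 := single_le_sum (f := fun k : ℕ => (if ∀ p ∈ N610.AP.PZ X S ps J, (∀ i, ¬ (p : ℤ) ∣ n + x i) ∧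
              ¬ (p : ℤ) ∣ n + (b' + k) then (1 : ℝ) else 0)) (fun j _ => by split_ifs <;> norm_num) hk
            rw [if_pos hk2] at h8
            exact h8
          linarith
        · have hrough : ∀ j, ∀ q : ℕ, q.Prime → (q : ℤ) ∣ n + x j → (Y : ℝ) ^ ε₁ ≤ q := by
            intro j q hq hd
            by_contra hc
            push Not at hc
            have hq1 : q ∈ P1 := (mem_PZY_iff hfl (by linarith)).2 ⟨hq, hc⟩
            by_cases hqps : q = ps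
            · rw [hqps] at hq hd
              exact hpsd j hq hd
            · exact hgood q hq1 hqps j hd
          have hwin : ∀ z : ℤ, |(z : ℝ)| ≤ c * CH.RR X → z ≠ 0 → (∀ j, z ≠ x j) →
              ∃ q : ℕ, q.Prime ∧ (q : ℝ) ≤ X ^ δ₁ ∧ (q : ℤ) ∣ n + z := by
            intro z hz hz0 hzh
            rcases hcov z hz hz0 hzh with ⟨k, hk, hzk⟩ | ⟨p, hpp, hpy, hpd⟩
            · push Not at hsv
              obtain ⟨p, hp, hpc⟩ := hsv k hk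
              have hpz := mem_PZ.1 hp
              refine ⟨p, hpz.1, ?_, ?_⟩
              · refine le_trans ?_ hJδ
                exact_mod_cast hpz.2.1
              · rw [hzk]
                exact hpc (hJP p hp)
            · refine ⟨p, hpp, ?_, hpd n hnr⟩
              refine le_trans ?_ hyδ
              exact_mod_cast hpy
          have h1 := hpt _ (Nat.pos_of_ne_zero hNh) hNX
          simp only [dvd_natAbs_iff] at h1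
          have e1 : (if n.Prime ∧ Gd X ((n : ℤ) + h).natAbs ∧
              (∀ j, ∀ q : ℕ, q.Prime → (q : ℤ) ∣ n + x j → (Y : ℝ) ^ ε₁ ≤ q) ∧
              (∀ z : ℤ, |(z : ℝ)| ≤ c * CH.RR X → z ≠ 0 → (∀ j, z ≠ x j) →
                ∃ q : ℕ, q.Prime ∧ (q : ℝ) ≤ X ^ δ₁ ∧ (q : ℤ) ∣ n + z)
              then (1 : ℝ) else 0) = if Gd X ((n : ℤ) + h).natAbs then 1 else 0 := by
            by_cases hg : Gd X ((n : ℤ) + h).natAbs
            · rw [if_pos ⟨hpr, hg, hrough, hwin⟩, if_pos hg]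
            · rw [if_neg (fun h => hg h.2.1), if_neg hg]
          have e2 : (if n.Prime ∧ Sw X ((n : ℤ) + h).natAbs ∧
              (∀ p ∈ P1, p ≠ ps → ∀ j, ¬ (p : ℤ) ∣ n + x j) then (1 : ℝ) else 0) =
              if Sw X ((n : ℤ) + h).natAbs then 1 else 0 := by
            by_cases hg : Sw X ((n : ℤ) + h).natAbs
            · rw [if_pos ⟨hpr, hg, hgood⟩, if_pos hg]
            · rw [if_neg (fun h => hg h.2.1), if_neg hg]
          rw [e1] at n1 ⊢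
          rw [e2] at n6 ⊢
          linarith
    · -- a small prime divides one of the numbers
      push Not at hgood
      obtain ⟨p, hp1, hpps, j, hj⟩ := hgood
      have hpp := (mem_PZY hp1).1
      have hpζ : p ∈ Y882.PZ Y ζ := by
        rw [hP1] at hp1
        unfold Y882.PZ at hp1 ⊢
        rw [mem_filter] at hp1 ⊢
        exact ⟨hp1.1, hp1.2.1, lt_of_lt_of_le hp1.2.2 hεζ⟩
      have hpP : p ∈ P := by
        rw [hP]
        unfold Y882.PZ at hpζ ⊢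
        rw [mem_filter] at hpζ ⊢
        exact ⟨hpζ.1, hpζ.2.1, lt_of_lt_of_le hpζ.2.2 hζυ⟩
      have hφp : φ p := by
        refine ⟨hpps, ?_⟩
        rw [RC_pos _ _ _ _ hp1, mod_mem_Rx _ _ _ hpp.pos]
        exact ⟨hnp p hpp (mem_PZY hp1).2, j, hj⟩
      have hW0 : KW.WW Y ζ υ aw bw Ns = 0 := by
        unfold KW.WW
        rw [if_neg, zero_mul]
        push Not
        exact ⟨p, hpζ, (hNs1 p hpP).2 hφp⟩
      rw [hW0] at hV1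
      linarith
  · have := hle1 Ns
    rw [if_pos hpr]
    linarith

/-- the error terms -/
theorem errsK (m : ℕ) (κ₀ K1 σ : ℝ) (hκ : 0 < κ₀) : ∀ᶠ X : ℝ in atTop, ∀ φ : ℝ, 0 < φ →
    φ ≤ X ^ (7 / 5000 : ℝ) →
    22 * (Real.log X) ^ 2 * X ^ (199 / 200 : ℝ) ≤ κ₀ * (X / (φ * (Real.log X) ^ m)) ∧
    (5 * Real.log X + K1 * (Real.log X) ^ 2) * (X / (φ * (Real.log X) ^ (m + 20))) ≤
      κ₀ * (X / (φ * (Real.log X) ^ m)) ∧
    σ * (X / (φ * (Real.log X) ^ (m + 10))) ≤ κ₀ * (X / (φ * (Real.log X) ^ m)) := by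
  have t1 := Real.tendsto_log_atTop
  filter_upwards [eventually_ge_atTop 4, t1.eventually_ge_atTop 1, t1.eventually_ge_atTop ((5 + K1) / κ₀),
    t1.eventually_ge_atTop (σ / κ₀), Pool.Agent.H398R2.BV.ev_log (22 / κ₀) (m + 2) (1 / 500) (by norm_num)]
    with X hX4 hL1 hL2 hL3 hev
  intro φ hφ hφX
  set L := Real.log X with hL
  have hX0 : 0 < X := by linarith
  have hX1 : 1 ≤ X := by linarith
  have hL0 : 0 < L := by linarith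
  rw [div_le_iff₀ hκ] at hL2 hL3
  refine ⟨?_, ?_, ?_⟩
  · rw [mul_div_assoc', le_div_iff₀ (by positivity)]
    have h1 : 22 * L ^ (m + 2) ≤ κ₀ * X ^ (1 / 500 : ℝ) := by
      have : 22 / κ₀ * L ^ (m + 2) = 22 * L ^ (m + 2) / κ₀ := by ring
      rw [this, div_le_iff₀ hκ] at hev
      linarith
    calc 22 * L ^ 2 * X ^ (199 / 200 : ℝ) * (φ * L ^ m) ≤
        22 * L ^ 2 * X ^ (199 / 200 : ℝ) * (X ^ (7 / 5000 : ℝ) * L ^ m) := by gcongr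
      _ = (22 * L ^ (m + 2)) * (X ^ (199 / 200 : ℝ) * X ^ (7 / 5000 : ℝ)) := by ring
      _ ≤ (κ₀ * X ^ (1 / 500 : ℝ)) * (X ^ (199 / 200 : ℝ) * X ^ (7 / 5000 : ℝ)) := by gcongr
      _ = κ₀ * (X ^ (1 / 500 : ℝ) * (X ^ (199 / 200 : ℝ) * X ^ (7 / 5000 : ℝ))) := by ring
      _ ≤ κ₀ * X := by
          apply mul_le_mul_of_nonneg_left _ hκ.le
          rw [← Real.rpow_add hX0, ← Real.rpow_add hX0]
          calc _ ≤ X ^ (1 : ℝ) := Real.rpow_le_rpow_of_exponent_le hX1 (by norm_num)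
            _ = X := Real.rpow_one X
  · have h1 : 5 * L + K1 * L ^ 2 ≤ κ₀ * L ^ 3 := by
      have h2 : 5 * L ≤ 5 * L ^ 2 := by nlinarith
      have h3 : L ^ 3 = L * L ^ 2 := by ring
      have h4 : (5 + K1) * L ^ 2 ≤ (L * κ₀) * L ^ 2 := mul_le_mul_of_nonneg_right hL2 (by positivity)
      rw [h3]
      linarith
    have h2 : L ^ 3 ≤ L ^ 20 := pow_le_pow_right₀ hL1 (by norm_num)
    have h3 : 5 * L + K1 * L ^ 2 ≤ κ₀ * L ^ 20 := h1.trans (mul_le_mul_of_nonneg_left h2 hκ.le)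
    calc (5 * L + K1 * L ^ 2) * (X / (φ * L ^ (m + 20))) ≤ (κ₀ * L ^ 20) * (X / (φ * L ^ (m + 20))) := by gcongr
      _ = κ₀ * (X / (φ * L ^ m)) := by
          rw [pow_add]
          field_simp
  · have h2 : L ≤ L ^ 10 := by
      calc L = L ^ 1 := (pow_one L).symm
        _ ≤ L ^ 10 := pow_le_pow_right₀ hL1 (by norm_num)
    have h3 : σ ≤ κ₀ * L ^ 10 := by
      calc σ ≤ L * κ₀ := hL3
        _ = κ₀ * L := mul_comm _ _
        _ ≤ _ := mul_le_mul_of_nonneg_left h2 hκ.le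
    calc σ * (X / (φ * L ^ (m + 10))) ≤ (κ₀ * L ^ 10) * (X / (φ * L ^ (m + 10))) := by gcongr
      _ = κ₀ * (X / (φ * L ^ m)) := by
          rw [pow_add]
          field_simp

end Pool.Agent.J4H73.KT
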