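import Pool.Agent.J4H73.CG.ShZ

/-! Residues of tuples of integer shifts. -/

set_option autoImplicit false

open Finset Filter

namespace Pool.Agent.J4H73.KT

open Pool.Agent.H378R2 Pool.Agent.H378R2.LSBV Pool.Agent.N610.AP Pool.Agent.Y882
open Pool.Agent.J4H73.BV Pool.Agent.J4H73.CH Pool.Agent.J4H73.CG
open Pool.Agent

/-- the nonzero residues of the `- x j` -/
def Rx {m : ℕ} (x : Fin m → ℤ) (p : ℕ) : Finset ℕ := (univ.image (fun j => rz (x j) p)).erase 0

theorem mem_Rx {m : ℕ} (x : Fin m → ℤ) (p a : ℕ) : a ∈ Rx x p ↔ a ≠ 0 ∧ ∃ j, rz (x j) p = a := by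
  unfold Rx
  rw [mem_erase, mem_image]
  simp

theorem mod_mem_Rx {m : ℕ} (x : Fin m → ℤ) (p n : ℕ) (hp : 0 < p) :
    n % p ∈ Rx x p ↔ (¬ p ∣ n ∧ ∃ j, (p : ℤ) ∣ n + x j) := by
  rw [mem_Rx]
  apply and_congr
  · rw [Ne, Nat.dvd_iff_mod_eq_zero]
  · apply exists_congr
    intro j
    rw [eq_comm]
    exact rz_iff (x j) p n hp

theorem Rx_range {m : ℕ} (x : Fin m → ℤ) (p : ℕ) (hp : 0 < p) : ∀ a ∈ Rx x p, a ≠ 0 ∧ a < p := by
  intro a ha
  rw [mem_Rx] at ha
  obtain ⟨h1, j, rfl⟩ := ha
  exact ⟨h1, rz_lt _ _ hp⟩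

theorem card_Rx_le {m : ℕ} (x : Fin m → ℤ) (p : ℕ) : (Rx x p).card ≤ m := by
  refine card_erase_le.trans (card_image_le.trans ?_)
  rw [card_univ, Fintype.card_fin]

theorem card_Rx_le' {m : ℕ} (x : Fin m → ℤ) (p : ℕ) (hp : 0 < p) : (Rx x p).card ≤ p - 1 := by
  have h1 : Rx x p ⊆ Icc 1 (p - 1) := by
    intro a ha
    have := Rx_range x p hp a ha
    rw [mem_Icc]
    omega
  have := card_le_card h1
  rw [Nat.card_Icc] at this
  omega

/-- the density -/
noncomputable def gR (W ps : ℕ) (R : ℕ → Finset ℕ) (p : ℕ) : ℝ :=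
  if p ∣ W ∨ p = ps then 0 else ((R p).card : ℝ) * (1 / ((p : ℝ) - 1))

theorem gR_nn (W ps : ℕ) (R : ℕ → Finset ℕ) (p : ℕ) (hp : p.Prime) : 0 ≤ gR W ps R p := by
  unfold gR
  have h1 : (2 : ℝ) ≤ p := by exact_mod_cast hp.two_le
  split_ifs
  · exact le_rfl
  · apply mul_nonneg (Nat.cast_nonneg _)
    apply div_nonneg <;> linarith

theorem gR_le (W ps : ℕ) (R : ℕ → Finset ℕ) (K p : ℕ) (hK : (R p).card ≤ K) (hp : p.Prime) :
    gR W ps R p ≤ K / ((p : ℝ) - 1) := by
  unfold gR
  have h1 : (2 : ℝ) ≤ p := by exact_mod_cast hp.two_le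
  have h2 : (0 : ℝ) < (p : ℝ) - 1 := by linarith
  split_ifs
  · positivity
  · rw [mul_one_div]
    apply div_le_div_of_nonneg_right _ h2.le
    exact_mod_cast hK

theorem gR_le_one (W ps : ℕ) (R : ℕ → Finset ℕ) (p : ℕ) (hK : (R p).card ≤ p - 1) (hp : p.Prime) :
    0 ≤ 1 - gR W ps R p ∧ 1 - gR W ps R p ≤ 1 := by
  have h0 := gR_nn W ps R p hp
  have h1 : (2 : ℝ) ≤ p := by exact_mod_cast hp.two_le
  have h2 : (0 : ℝ) < (p : ℝ) - 1 := by linarith
  have h3 := gR_le W ps R (p - 1) p hK hp
  rw [Nat.cast_sub hp.one_lt.le, Nat.cast_one, div_self h2.ne'] at h3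
  constructor <;> linarith

theorem gR_Rx_le_one {m : ℕ} (W ps : ℕ) (x : Fin m → ℤ) (p : ℕ) (hp : p.Prime) :
    0 ≤ 1 - gR W ps (Rx x) p ∧ 1 - gR W ps (Rx x) p ≤ 1 :=
  gR_le_one W ps (Rx x) p (card_Rx_le' x p hp.pos) hp

/-- one shift -/
theorem gR_single (W ps : ℕ) (h : ℤ) (p : ℕ) (hp : p.Prime) :
    gR W ps (Rx (fun _ : Fin 1 => h)) p = gh W ps h.natAbs p := by
  unfold gR gh
  by_cases h1 : p ∣ W ∨ p = ps
  · rw [if_pos h1, if_pos]
    rcases h1 with h1 | h1
    · exact Or.inl h1
    · exact Or.inr (Or.inl h1)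
  · rw [if_neg h1]
    push Not at h1
    have h0 := rz_iff h p 0 hp.pos
    rw [Nat.zero_mod, Nat.cast_zero, zero_add, ← dvd_natAbs_iff] at h0
    have e : Rx (fun _ : Fin 1 => h) p = if p ∣ h.natAbs then ∅ else {rz h p} := by
      ext a
      rw [mem_Rx]
      split_ifs with h2
      · have := h0.2 h2
        simp only [notMem_empty, iff_false]
        rintro ⟨h3, j, h4⟩
        exact h3 (h4.symm.trans this.symm)
      · rw [mem_singleton]
        constructor
        · rintro ⟨_, _, h4⟩
          exact h4.symm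
        · rintro rfl
          refine ⟨fun h3 => h2 (h0.1 h3.symm), 0, rfl⟩
    rw [e]
    by_cases h2 : p ∣ h.natAbs
    · rw [if_pos h2, if_pos (Or.inr (Or.inr h2))]
      simp
    · rw [if_neg h2, if_neg (by push Not; exact ⟨h1.1, h1.2, h2⟩)]
      simp

/-- the number of nonzero residues does not change under affine maps exchanging the base point -/
theorem card_swap {m : ℕ} (x : Fin m → ℤ) (i0 : Fin m) (s : ℤ) (hs : s = 1 ∨ s = -1) (p : ℕ) (hp : p.Prime) :
    (Rx (fun j => if j = i0 then -(s * x i0) else s * (x j - x i0)) p).card = (Rx x p).card := by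
  classical
  have key : ∀ {m' : ℕ} (y : Fin m' → ℤ),
      (Rx y p).card + 1 = (insert (0 : ZMod p) (univ.image (fun j => ((y j : ℤ) : ZMod p)))).card := by
    intro m' y
    have h1 : (insert (0 : ZMod p) (univ.image (fun j => ((y j : ℤ) : ZMod p)))) =
        insert 0 ((Rx y p).image (fun a : ℕ => -(a : ZMod p))) := by
      ext a
      simp only [mem_insert, mem_image, mem_univ, true_and]
      constructor
      · rintro (h | ⟨j, h⟩)
        · exact Or.inl h
        · by_cases ha : a = 0
          · exact Or.inl ha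
          · right
            refine ⟨rz (y j) p, ?_, ?_⟩
            · rw [mem_Rx]
              refine ⟨?_, j, rfl⟩
              intro h0
              apply ha
              rw [← h]
              have h2 := (rz_iff (y j) p 0 hp.pos).1 (by rw [Nat.zero_mod, h0])
              rw [Nat.cast_zero, zero_add] at h2
              exact (ZMod.intCast_zmod_eq_zero_iff_dvd _ _).2 h2
            · rw [← h]
              have h2 := (rz_iff (y j) p (rz (y j) p) hp.pos).1 (Nat.mod_eq_of_lt (rz_lt _ _ hp.pos))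
              have h3 := (ZMod.intCast_zmod_eq_zero_iff_dvd _ _).2 h2
              push_cast at h3
              exact neg_eq_of_add_eq_zero_right h3
      · rintro (h | ⟨b, hb, h⟩)
        · exact Or.inl h
        · right
          rw [mem_Rx] at hb
          obtain ⟨_, j, rfl⟩ := hb
          refine ⟨j, ?_⟩
          rw [← h]
          have h2 := (rz_iff (y j) p (rz (y j) p) hp.pos).1 (Nat.mod_eq_of_lt (rz_lt _ _ hp.pos))
          have h3 := (ZMod.intCast_zmod_eq_zero_iff_dvd _ _).2 h2
          push_cast at h3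
          exact (neg_eq_of_add_eq_zero_right h3).symm
    rw [h1, card_insert_of_notMem, card_image_of_injOn]
    · intro a ha b hb hab
      rw [mem_coe] at ha hb
      have ha' := Rx_range y p hp.pos a ha
      have hb' := Rx_range y p hp.pos b hb
      have h2 : (a : ZMod p) = b := neg_injective hab
      have h3 := (ZMod.natCast_eq_natCast_iff a b p).1 h2
      unfold Nat.ModEq at h3
      rwa [Nat.mod_eq_of_lt ha'.2, Nat.mod_eq_of_lt hb'.2] at h3
    · rw [mem_image]
      rintro ⟨a, ha, h2⟩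
      have ha' := Rx_range y p hp.pos a ha
      have h3 : (a : ZMod p) = 0 := neg_eq_zero.1 h2
      have h4 := (ZMod.natCast_eq_zero_iff a p).1 h3
      exact absurd (Nat.le_of_dvd (Nat.pos_of_ne_zero ha'.1) h4) (by omega)
  have h1 := key x
  have h2 := key (fun j => if j = i0 then -(s * x i0) else s * (x j - x i0))
  have h3 : (insert (0 : ZMod p) (univ.image (fun j => (((if j = i0 then -(s * x i0) else s * (x j - x i0) : ℤ)) : ZMod p)))) =
      (insert (0 : ZMod p) (univ.image (fun j => ((x j : ℤ) : ZMod p)))).image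
        (fun a => (s : ZMod p) * (a - ((x i0 : ℤ) : ZMod p))) := by
    ext a
    simp only [mem_insert, mem_image, mem_univ, true_and]
    constructor
    · rintro (h | ⟨j, h⟩)
      · refine ⟨((x i0 : ℤ) : ZMod p), Or.inr ⟨i0, rfl⟩, ?_⟩
        rw [sub_self, mul_zero, h]
      · by_cases hj : j = i0
        · rw [if_pos hj] at h
          refine ⟨0, Or.inl rfl, ?_⟩
          rw [← h]
          push_cast
          ring
        · rw [if_neg hj] at h
          refine ⟨((x j : ℤ) : ZMod p), Or.inr ⟨j, rfl⟩, ?_⟩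
          rw [← h]
          push_cast
          ring
    · rintro ⟨b, hb, h⟩
      rcases hb with hb | ⟨j, hb⟩
      · right
        refine ⟨i0, ?_⟩
        rw [if_pos rfl, ← h, hb]
        push_cast
        ring
      · by_cases hj : j = i0
        · left
          rw [← h, ← hb, hj, sub_self, mul_zero]
        · right
          refine ⟨j, ?_⟩
          rw [if_neg hj, ← h, ← hb]
          push_cast
          ring
  have h4 : (insert (0 : ZMod p) (univ.image (fun j => ((((if j = i0 then -(s * x i0) else s * (x j - x i0) : ℤ)) : ℤ) : ZMod p)))).card =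
      (insert (0 : ZMod p) (univ.image (fun j => ((x j : ℤ) : ZMod p)))).card := by
    rw [h3]
    apply card_image_of_injective
    intro a b hab
    have hss : (s : ZMod p) * s = 1 := by
      rcases hs with h | h <;> rw [h] <;> push_cast <;> ring
    have h5 : (s : ZMod p) * (s * (a - ((x i0 : ℤ) : ZMod p))) = s * (s * (b - ((x i0 : ℤ) : ZMod p))) :=
      congrArg (fun c => (s : ZMod p) * c) hab
    rw [← mul_assoc, ← mul_assoc, hss, one_mul, one_mul] at h5
    exact sub_left_injective h5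
  have h5 : (Rx (fun j => if j = i0 then -(s * x i0) else s * (x j - x i0)) p).card + 1 = (Rx x p).card + 1 := by
    rw [h1, h2]
    exact h4
  omega

end Pool.Agent.J4H73.KT
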